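import Pool.Agent.GRO.Targets
import Pool.Agent.CRF.P_RMG

set_option autoImplicit false

/-!
# GRO, target GLC: lacunary radii, all square integrable functions
-/

namespace Pool.Agent.GRO

open MeasureTheory FourierTransform Set Filter Topology SchwartzMap
open scoped ENNReal NNReal
open Pool.Agent.MBS (E ex S)
open Pool.Agent.CRN (IN)
open Pool.Agent.CRN.RMN_ (IN_cont planch0 fourier_cont)
open Pool.Agent.CRF.RMG_ (Sg ex_norm ex_c ball_int)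

namespace GLC_

theorem sq_norm (g : E 2 → ℂ) : eLpNorm g 2 ^ 2 = ∫⁻ ξ, ‖g ξ‖ₑ ^ 2 := by
  rw [eLpNorm_eq_lintegral_rpow_enorm_toReal (by norm_num) (by norm_num)]
  simp only [ENNReal.toReal_ofNat, ENNReal.rpow_ofNat]
  rw [← ENNReal.rpow_natCast, ← ENNReal.rpow_mul]
  norm_num

theorem approx {g : E 2 → ℂ} (hg : MemLp g 2) {ε : ℝ} (hε : 0 < ε) :
    ∃ φ : 𝓢(E 2, ℂ), eLpNorm (g - (φ : E 2 → ℂ)) 2 ≤ ENNReal.ofReal ε := by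
  obtain ⟨φ, h1, h2, h3⟩ := MemLp.exist_eLpNorm_sub_le (p := 2) (by norm_num) (by norm_num) hg hε
  exact ⟨h1.toSchwartzMap h2, h3⟩

theorem Sg_diff {g h : E 2 → ℂ} (hg : MemLp g 2) (hh : MemLp h 2) (R : ℝ) (x : E 2) :
    ‖Sg h R x - Sg g R x‖ₑ ≤
      eLpNorm (g - h) 2 * volume (Metric.closedBall (0 : E 2) R) ^ (1 / 2 : ℝ) := by
  have i1 : IntegrableOn (fun ξ : E 2 => g ξ * ex x ξ) (Metric.closedBall (0 : E 2) R) :=
    Integrable.mul_bdd (c := 1) (ball_int hg R) (ex_c x).aestronglyMeasurable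
      (ae_of_all _ fun ξ => (ex_norm x ξ).le)
  have i2 : IntegrableOn (fun ξ : E 2 => h ξ * ex x ξ) (Metric.closedBall (0 : E 2) R) :=
    Integrable.mul_bdd (c := 1) (ball_int hh R) (ex_c x).aestronglyMeasurable
      (ae_of_all _ fun ξ => (ex_norm x ξ).le)
  have h0 : AEStronglyMeasurable (g - h) (volume.restrict (Metric.closedBall (0 : E 2) R)) :=
    (hg.1.sub hh.1).restrict
  calc ‖Sg h R x - Sg g R x‖ₑ
      = ‖∫ ξ in Metric.closedBall (0 : E 2) R, (h ξ * ex x ξ - g ξ * ex x ξ)‖ₑ := by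
        rw [integral_sub i2 i1]
        rfl
    _ ≤ ∫⁻ ξ in Metric.closedBall (0 : E 2) R, ‖h ξ * ex x ξ - g ξ * ex x ξ‖ₑ :=
        enorm_integral_le_lintegral_enorm _
    _ = ∫⁻ ξ in Metric.closedBall (0 : E 2) R, ‖(g - h) ξ‖ₑ := by
        refine lintegral_congr fun ξ => ?_
        rw [← sub_mul, enorm_mul, Pi.sub_apply, enorm_sub_rev]
        have : ‖ex x ξ‖ₑ = 1 := by
          rw [← ofReal_norm, ex_norm, ENNReal.ofReal_one]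
        rw [this, mul_one]
    _ = eLpNorm (g - h) 1 (volume.restrict (Metric.closedBall (0 : E 2) R)) := by
        rw [eLpNorm_one_eq_lintegral_enorm]
    _ ≤ eLpNorm (g - h) 2 (volume.restrict (Metric.closedBall (0 : E 2) R)) *
        (volume.restrict (Metric.closedBall (0 : E 2) R)) univ ^
          (1 / (1 : ℝ≥0∞).toReal - 1 / (2 : ℝ≥0∞).toReal) :=
        eLpNorm_le_eLpNorm_mul_rpow_measure_univ (by norm_num) h0
    _ ≤ _ := by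
        rw [Measure.restrict_apply_univ]
        have e : (1 / (1 : ℝ≥0∞).toReal - 1 / (2 : ℝ≥0∞).toReal) = 1 / 2 := by norm_num
        rw [e]
        gcongr
        exact Measure.restrict_le_self

theorem norm_tri {g h : E 2 → ℂ} (hg : MemLp g 2) (hh : MemLp h 2) :
    eLpNorm h 2 ≤ eLpNorm g 2 + eLpNorm (g - h) 2 := by
  have e : h = g - (g - h) := by
    funext x
    simp
  have h1 : eLpNorm (g - (g - h)) 2 ≤ eLpNorm g 2 + eLpNorm (g - h) 2 :=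
    eLpNorm_sub_le hg.1 (hg.1.sub hh.1) (by norm_num)
  rw [← e] at h1
  exact h1

theorem exp_step {y : ℝ} : 2 * Real.exp y ≤ Real.exp (y + 1) := by
  rw [Real.exp_add]
  have h1 : (2 : ℝ) ≤ Real.exp 1 := by
    have := Real.add_one_le_exp (1 : ℝ)
    linarith
  have h2 := Real.exp_pos y
  nlinarith

theorem rr_step (k : ℕ) : 2 * rr k ≤ rr (k + 1) := by
  unfold rr
  refine exp_step.trans (Real.exp_le_exp.2 ?_)
  have h1 : (1 : ℝ) ≤ Real.exp (2 ^ k) := Real.one_le_exp (by positivity)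
  have h2 : (2 : ℝ) ^ k + 1 ≤ 2 ^ (k + 1) := by
    have : (1 : ℝ) ≤ 2 ^ k := one_le_pow₀ (by norm_num)
    rw [pow_succ]
    linarith
  calc Real.exp (2 ^ k) + 1 ≤ 2 * Real.exp (2 ^ k) := by linarith
    _ ≤ Real.exp (2 ^ k + 1) := exp_step
    _ ≤ _ := Real.exp_le_exp.2 h2

theorem rr_pos (k : ℕ) : 0 < rr k := Real.exp_pos _

theorem rr_mono : StrictMono rr := strictMono_nat_of_lt_succ fun k => by
  have h1 := rr_step k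
  have h2 := rr_pos k
  linarith

theorem rr_sep : ∀ R ∈ range rr, ∀ R' ∈ range rr, R < R' → R + 1 / 2 * R' ≤ R' := by
  rintro _ ⟨j, rfl⟩ _ ⟨k, rfl⟩ h
  have h1 : j < k := rr_mono.lt_iff_lt.1 h
  have h2 : rr (j + 1) ≤ rr k := rr_mono.monotone h1
  have h3 := rr_step j
  linarith

theorem core {C : ℝ≥0} (hC : ∀ (A : Set ℝ) (f : E 2 → ℂ), (∀ R ∈ A, 0 < R) →
    (∀ R ∈ A, ∀ R' ∈ A, R < R' → R + 1 / 2 * R' ≤ R') → Measurable f → Integrable f →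
      MemLp f 2 → ∫⁻ x, (⨆ R ∈ A, ‖S f R x‖ₑ) ^ 2 ≤ C * ∫⁻ x, ‖f x‖ₑ ^ 2)
    (φ : 𝓢(E 2, ℂ)) :
    (Measurable fun x => (⨆ k : ℕ, ‖Sg (φ : E 2 → ℂ) (rr k) x‖ₑ) ^ 2) ∧
      ∫⁻ x, (⨆ k : ℕ, ‖Sg (φ : E 2 → ℂ) (rr k) x‖ₑ) ^ 2 ≤ C * eLpNorm (φ : E 2 → ℂ) 2 ^ 2 := by
  let f : 𝓢(E 2, ℂ) := 𝓕⁻ φ
  have hF : 𝓕 (f : E 2 → ℂ) = (φ : E 2 → ℂ) := by
    have h1 : (𝓕 f : 𝓢(E 2, ℂ)) = φ := FourierTransform.fourier_fourierInv_eq φ
    rw [← SchwartzMap.fourier_coe, h1]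
  have hS : ∀ (R : ℝ) (x : E 2), S (f : E 2 → ℂ) R x = Sg (φ : E 2 → ℂ) R x := by
    intro R x
    rw [S, hF]
    rfl
  have hint : Integrable (f : E 2 → ℂ) := f.integrable
  have hL2 : MemLp (f : E 2 → ℂ) 2 := f.memLp 2
  have hφi : Integrable (φ : E 2 → ℂ) := φ.integrable
  constructor
  · refine Measurable.pow_const (Measurable.iSup fun k => ?_) 2
    have h1 : (fun x : E 2 => Sg (φ : E 2 → ℂ) (rr k) x) =
        IN ((Metric.closedBall (0 : E 2) (rr k)).indicator (φ : E 2 → ℂ)) := by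
      funext x
      rw [Sg, IN, ← integral_indicator Metric.isClosed_closedBall.measurableSet]
      refine integral_congr_ae (Filter.Eventually.of_forall fun ξ => ?_)
      by_cases hξ : ξ ∈ Metric.closedBall (0 : E 2) (rr k)
      · simp only [indicator_of_mem hξ]
      · simp only [indicator_of_notMem hξ, zero_mul]
    have h2 : Measurable fun x : E 2 => Sg (φ : E 2 → ℂ) (rr k) x := by
      rw [h1]
      exact (IN_cont (hφi.indicator Metric.isClosed_closedBall.measurableSet)).measurable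
    exact h2.enorm
  · have h1 := hC (range rr) (f : E 2 → ℂ) (by rintro _ ⟨k, rfl⟩; exact rr_pos k) rr_sep
      f.continuous.measurable hint hL2
    simp only [iSup_range] at h1
    have h2 : ∫⁻ x, ‖f x‖ₑ ^ 2 = eLpNorm (φ : E 2 → ℂ) 2 ^ 2 := by
      rw [sq_norm, ← planch0 hint hL2, hF]
    rw [h2] at h1
    refine le_trans (le_of_eq (lintegral_congr fun x => ?_)) h1
    simp only [hS]

theorem fatou {a : ℕ → ℕ → ℝ≥0∞} {b : ℕ → ℝ≥0∞}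
    (h : ∀ k, Tendsto (fun n => a n k) atTop (𝓝 (b k))) :
    (⨆ k, b k) ^ 2 ≤ liminf (fun n => (⨆ k, a n k) ^ 2) atTop := by
  have h2 : ∀ k : ℕ, b k ≤ liminf (fun n => ⨆ k, a n k) atTop := by
    intro k
    rw [← (h k).liminf_eq]
    refine liminf_le_liminf (Filter.Eventually.of_forall fun n => ?_)
    exact le_iSup (a n) k
  have h4 : Monotone fun y : ℝ≥0∞ => y ^ 2 := fun a b hab => pow_le_pow_left' hab 2
  have h5 := Monotone.map_liminf_of_continuousAt (F := atTop) h4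
    (fun n : ℕ => ⨆ k, a n k) ((ENNReal.continuous_pow 2).continuousAt)
  exact (h4 (iSup_le h2)).trans (le_of_eq h5)

theorem eps_lim : Tendsto (fun n : ℕ => ENNReal.ofReal (1 / ((n : ℝ) + 1))) atTop (𝓝 0) := by
  have h2 := ENNReal.tendsto_ofReal (tendsto_one_div_add_atTop_nhds_zero_nat (𝕜 := ℝ))
  simpa using h2

theorem Sg_lim {g : E 2 → ℂ} (hg : MemLp g 2) {h : ℕ → E 2 → ℂ} (hh : ∀ n, MemLp (h n) 2)
    (hφ : ∀ n : ℕ, eLpNorm (g - h n) 2 ≤ ENNReal.ofReal (1 / ((n : ℝ) + 1)))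
    (R : ℝ) (x : E 2) :
    Tendsto (fun n => ‖Sg (h n) R x‖ₑ) atTop (𝓝 ‖Sg g R x‖ₑ) := by
  have h2 : Tendsto (fun n => Sg (h n) R x) atTop (𝓝 (Sg g R x)) := by
    rw [tendsto_iff_edist_tendsto_0]
    have hv : volume (Metric.closedBall (0 : E 2) R) ^ (1 / 2 : ℝ) ≠ ⊤ :=
      ENNReal.rpow_ne_top_of_nonneg (by norm_num) measure_closedBall_lt_top.ne
    have h3 : Tendsto (fun n : ℕ => ENNReal.ofReal (1 / ((n : ℝ) + 1)) *
        volume (Metric.closedBall (0 : E 2) R) ^ (1 / 2 : ℝ)) atTop (𝓝 0) := by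
      have h4 := ENNReal.Tendsto.mul_const eps_lim (Or.inr hv)
      rwa [zero_mul] at h4
    refine tendsto_of_tendsto_of_tendsto_of_le_of_le tendsto_const_nhds h3
      (fun n => zero_le) fun n => ?_
    have h5 : edist (Sg (h n) R x) (Sg g R x) ≤ ENNReal.ofReal (1 / ((n : ℝ) + 1)) *
        volume (Metric.closedBall (0 : E 2) R) ^ (1 / 2 : ℝ) := by
      rw [edist_eq_enorm_sub]
      exact (Sg_diff hg (hh n) R x).trans (mul_le_mul_left (hφ n) _)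
    exact h5
  exact (continuous_enorm.tendsto _).comp h2

theorem seq {g : E 2 → ℂ} (hg : MemLp g 2) : ∃ φ : ℕ → 𝓢(E 2, ℂ), ∀ n : ℕ,
    eLpNorm (g - (φ n : E 2 → ℂ)) 2 ≤ ENNReal.ofReal (1 / ((n : ℝ) + 1)) :=
  ⟨fun n => (approx hg (ε := 1 / ((n : ℝ) + 1)) (by positivity)).choose,
    fun n => (approx hg (ε := 1 / ((n : ℝ) + 1)) (by positivity)).choose_spec⟩

theorem bd {C : ℝ≥0} {I N : ℝ≥0∞} {J M : ℕ → ℝ≥0∞} (h1 : I ≤ liminf J atTop)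
    (h2 : ∀ n, J n ≤ C * M n ^ 2) (h3 : ∀ n : ℕ, M n ≤ N + ENNReal.ofReal (1 / ((n : ℝ) + 1))) :
    I ≤ C * N ^ 2 := by
  have h4 : Tendsto (fun n : ℕ => (N + ENNReal.ofReal (1 / ((n : ℝ) + 1))) ^ 2)
      atTop (𝓝 ((N + 0) ^ 2)) :=
    ((ENNReal.continuous_pow 2).tendsto _).comp (tendsto_const_nhds.add eps_lim)
  have h5 : Tendsto (fun n : ℕ => (C : ℝ≥0∞) *
      (N + ENNReal.ofReal (1 / ((n : ℝ) + 1))) ^ 2) atTop (𝓝 (C * (N + 0) ^ 2)) :=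
    ENNReal.Tendsto.const_mul h4 (Or.inr ENNReal.coe_ne_top)
  have h6 : ∀ n : ℕ, J n ≤ (C : ℝ≥0∞) * (N + ENNReal.ofReal (1 / ((n : ℝ) + 1))) ^ 2 :=
    fun n => (h2 n).trans (by gcongr; exact h3 n)
  have h7 : liminf J atTop ≤ (C : ℝ≥0∞) * (N + 0) ^ 2 := by
    rw [← h5.liminf_eq]
    exact liminf_le_liminf (Filter.Eventually.of_forall h6)
  rw [add_zero] at h7
  exact h1.trans h7

theorem m1 {g : E 2 → ℂ} (hg : MemLp g 2) {h : ℕ → E 2 → ℂ} (hh : ∀ n, MemLp (h n) 2)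
    (hφ : ∀ n : ℕ, eLpNorm (g - h n) 2 ≤ ENNReal.ofReal (1 / ((n : ℝ) + 1)))
    (hm : ∀ n, Measurable fun x => (⨆ k : ℕ, ‖Sg (h n) (rr k) x‖ₑ) ^ 2) :
    ∫⁻ x, (⨆ k : ℕ, ‖Sg g (rr k) x‖ₑ) ^ 2 ≤
      liminf (fun n => ∫⁻ x, (⨆ k : ℕ, ‖Sg (h n) (rr k) x‖ₑ) ^ 2) atTop := by
  have h8 : ∀ x : E 2, (⨆ k : ℕ, ‖Sg g (rr k) x‖ₑ) ^ 2 ≤
      liminf (fun n => (⨆ k : ℕ, ‖Sg (h n) (rr k) x‖ₑ) ^ 2) atTop :=
    fun x => fatou (a := fun n k => ‖Sg (h n) (rr k) x‖ₑ)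
      (b := fun k => ‖Sg g (rr k) x‖ₑ) fun k => Sg_lim hg hh hφ (rr k) x
  exact (lintegral_mono h8).trans (lintegral_liminf_le hm)

theorem m2 {C : ℝ≥0} {g : E 2 → ℂ} (hg : MemLp g 2) {h : ℕ → E 2 → ℂ}
    (hh : ∀ n, MemLp (h n) 2)
    (hφ : ∀ n : ℕ, eLpNorm (g - h n) 2 ≤ ENNReal.ofReal (1 / ((n : ℝ) + 1)))
    (hm : ∀ n, (Measurable fun x => (⨆ k : ℕ, ‖Sg (h n) (rr k) x‖ₑ) ^ 2) ∧
      ∫⁻ x, (⨆ k : ℕ, ‖Sg (h n) (rr k) x‖ₑ) ^ 2 ≤ C * eLpNorm (h n) 2 ^ 2) :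
    ∫⁻ x, (⨆ k : ℕ, ‖Sg g (rr k) x‖ₑ) ^ 2 ≤ C * eLpNorm g 2 ^ 2 :=
  bd (m1 hg hh hφ fun n => (hm n).1) (fun n => (hm n).2)
    fun n => (norm_tri hg (hh n)).trans (add_le_add le_rfl (hφ n))

theorem m3 {C : ℝ≥0} (hC : ∀ (A : Set ℝ) (f : E 2 → ℂ), (∀ R ∈ A, 0 < R) →
    (∀ R ∈ A, ∀ R' ∈ A, R < R' → R + 1 / 2 * R' ≤ R') → Measurable f → Integrable f →
      MemLp f 2 → ∫⁻ x, (⨆ R ∈ A, ‖S f R x‖ₑ) ^ 2 ≤ C * ∫⁻ x, ‖f x‖ₑ ^ 2)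
    {g : E 2 → ℂ} (hg : MemLp g 2) (φ : ℕ → 𝓢(E 2, ℂ)) (hφ : ∀ n : ℕ,
      eLpNorm (g - (φ n : E 2 → ℂ)) 2 ≤ ENNReal.ofReal (1 / ((n : ℝ) + 1))) :
    ∫⁻ x, (⨆ k : ℕ, ‖Sg g (rr k) x‖ₑ) ^ 2 ≤ C * eLpNorm g 2 ^ 2 := by
  have h1 : ∀ n, MemLp (φ n : E 2 → ℂ) 2 := fun n => (φ n).memLp 2
  have h2 := fun n => core hC (φ n)
  exact m2 hg h1 hφ h2

theorem main {C : ℝ≥0} (hC : ∀ (A : Set ℝ) (f : E 2 → ℂ), (∀ R ∈ A, 0 < R) →
    (∀ R ∈ A, ∀ R' ∈ A, R < R' → R + 1 / 2 * R' ≤ R') → Measurable f → Integrable f →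
      MemLp f 2 → ∫⁻ x, (⨆ R ∈ A, ‖S f R x‖ₑ) ^ 2 ≤ C * ∫⁻ x, ‖f x‖ₑ ^ 2)
    {g : E 2 → ℂ} (hg : MemLp g 2) :
    ∫⁻ x, (⨆ k : ℕ, ‖Sg g (rr k) x‖ₑ) ^ 2 ≤ C * eLpNorm g 2 ^ 2 := by
  obtain ⟨φ, hφ⟩ := seq hg
  exact m3 hC hg φ hφ

end GLC_

open GLC_ in
theorem p_GLC (h1 : T_DS2) : T_GLC := by
  obtain ⟨C, hC⟩ := h1
  refine ⟨C + 1, fun g hg => ?_⟩
  have h3 : (C : ℝ≥0∞) ≤ ((C + 1 : ℝ≥0) : ℝ≥0∞) := ENNReal.coe_le_coe.2 (by simp)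
  by_cases htop : ∫⁻ ξ, ‖g ξ‖ₑ ^ 2 = ⊤
  · rw [htop, ENNReal.mul_top (by simp)]
    exact le_top
  have hg2 : MemLp g 2 := by
    refine ⟨hg.aestronglyMeasurable, ?_⟩
    rw [eLpNorm_lt_top_iff_lintegral_rpow_enorm_lt_top (by norm_num) (by norm_num)]
    simp only [ENNReal.toReal_ofNat, ENNReal.rpow_ofNat]
    exact lt_top_iff_ne_top.2 htop
  have h4 := main hC hg2
  rw [sq_norm] at h4
  exact h4.trans (mul_le_mul_left h3 _)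

end Pool.Agent.GRO
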