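import Pool.Agent.GRO.Targets
import Pool.Agent.MBS.J1

/-!
# GRO, target GDC: the splitting
-/

set_option autoImplicit false

namespace Pool.Agent.GRO

open MeasureTheory FourierTransform Set Filter Topology
open scoped ENNReal NNReal
open Pool.Agent.MBS (E ex S)
open Pool.Agent.CRF (Mx dl)

namespace GDC_

theorem ex_c (x : E 2) : Continuous (fun ξ : E 2 => ex x ξ) :=
  Pool.Agent.MBS.ex_continuous.comp (Continuous.prodMk_right x)

theorem le_Mx (g : E 2 → ℂ) (x : E 2) {R : ℝ} (hR : 0 < R) :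
    ‖∫ ξ in Metric.closedBall (0 : E 2) R, g ξ * ex x ξ‖ₑ ≤ Mx g x := by
  unfold Mx
  exact le_iSup₂ (f := fun (R : ℝ) (_ : 0 < R) =>
    ‖∫ ξ in Metric.closedBall (0 : E 2) R, g ξ * ex x ξ‖ₑ) R hR

theorem int_ball {g : E 2 → ℂ} (hg : Measurable g) (h : ∫⁻ ξ, ‖g ξ‖ₑ ^ 2 ≠ ⊤) (R : ℝ) :
    IntegrableOn g (Metric.closedBall (0 : E 2) R) := by
  refine ⟨hg.aestronglyMeasurable, ?_⟩
  have h1 : ∀ a : ℝ≥0∞, a ≤ 1 + a ^ 2 := by
    intro a
    rcases le_total a 1 with ha | ha
    · exact ha.trans le_self_add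
    · calc a = a * 1 := (mul_one a).symm
        _ ≤ a * a := by gcongr
        _ = a ^ 2 := (sq a).symm
        _ ≤ 1 + a ^ 2 := le_add_self
  unfold HasFiniteIntegral
  calc ∫⁻ ξ in Metric.closedBall (0 : E 2) R, ‖g ξ‖ₑ
      ≤ ∫⁻ ξ in Metric.closedBall (0 : E 2) R, (1 + ‖g ξ‖ₑ ^ 2) := lintegral_mono fun ξ => h1 _
    _ = volume (Metric.closedBall (0 : E 2) R) +
        ∫⁻ ξ in Metric.closedBall (0 : E 2) R, ‖g ξ‖ₑ ^ 2 := by
        rw [lintegral_add_left measurable_const, setLIntegral_one]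
    _ < ⊤ := by
        refine ENNReal.add_lt_top.2 ⟨measure_closedBall_lt_top, ?_⟩
        exact lt_of_le_of_lt (setLIntegral_le_lintegral _ _) (lt_top_iff_ne_top.2 h)

theorem int_ex {g : E 2 → ℂ} (hg : Measurable g) (h : ∫⁻ ξ, ‖g ξ‖ₑ ^ 2 ≠ ⊤) (x : E 2) (R : ℝ) :
    IntegrableOn (fun ξ => g ξ * ex x ξ) (Metric.closedBall (0 : E 2) R) :=
  Integrable.mul_bdd (c := 1) (int_ball hg h R) (ex_c x).aestronglyMeasurable
    (ae_of_all _ fun ξ => (Pool.Agent.MBS.ex_norm x ξ).le)

/-- `LL ≥ 1` -/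
theorem one_le_LL {d : ℝ} (hd : 0 ≤ d) : 1 ≤ LL d := by
  unfold LL
  have h1 : 0 ≤ Real.log (3 + d) := Real.log_nonneg (by linarith)
  rw [Real.le_log_iff_exp_le (by linarith)]
  linarith [Real.exp_one_lt_d9]

/-- upper bound for `LL` -/
theorem LL_le {k : ℕ} {d : ℝ} (hd : 0 ≤ d) (h : d ≤ rr k) : LL d ≤ 4 * 2 ^ k := by
  unfold LL
  unfold rr at h
  have h2k : (1 : ℝ) ≤ 2 ^ k := one_le_pow₀ (by norm_num)
  set a : ℝ := 2 ^ k with ha
  have hea : 1 ≤ Real.exp a := Real.one_le_exp (by linarith)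
  have heea : 1 ≤ Real.exp (Real.exp a) := Real.one_le_exp (by linarith)
  have he2 : (7 : ℝ) ≤ Real.exp 2 := by
    have h1 : Real.exp 2 = Real.exp 1 * Real.exp 1 := by
      rw [← Real.exp_add]
      norm_num
    have h3 := Real.exp_one_gt_d9
    rw [h1]
    nlinarith
  have h1 : Real.log (3 + d) ≤ 2 + Real.exp a := by
    rw [Real.log_le_iff_le_exp (by linarith), Real.exp_add]
    nlinarith
  have h0 : 0 ≤ Real.log (3 + d) := Real.log_nonneg (by linarith)
  have h3 : Real.log (3 + Real.log (3 + d)) ≤ 2 + a := by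
    rw [Real.log_le_iff_le_exp (by linarith), Real.exp_add]
    nlinarith
  linarith

/-- lower bound for `LL` -/
theorem le_LL {k : ℕ} {R : ℝ} (h : rr k < R) : (2 : ℝ) ^ k ≤ LL R := by
  unfold LL
  unfold rr at h
  set a : ℝ := 2 ^ k with ha
  have h1 : Real.exp a ≤ Real.log (3 + R) := by
    have hR : 0 < R := lt_trans (Real.exp_pos _) h
    rw [Real.le_log_iff_exp_le (by linarith)]
    linarith
  have h2 := Real.exp_pos a
  rw [Real.le_log_iff_exp_le (by linarith)]
  linarith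

theorem one_le_w {a R : ℝ} (ha : 0 ≤ a) (hR : 0 ≤ R) : 1 ≤ w (a / 2) R := by
  unfold w
  rw [← ENNReal.ofReal_one]
  exact ENNReal.ofReal_le_ofReal (Real.one_le_rpow (one_le_LL hR) (by linarith))

theorem div_w_le {a R : ℝ} (ha : 0 ≤ a) (hR : 0 ≤ R) (z : ℝ≥0∞) : z / w (a / 2) R ≤ z := by
  have h := ENNReal.div_le_div_left (one_le_w ha hR) z
  simpa using h

theorem div_w_le' {a R : ℝ} (ha : 0 ≤ a) {k : ℕ} (hR : rr k < R) (z : ℝ≥0∞) :
    z / w (a / 2) R ≤ ENNReal.ofReal (((2 : ℝ) ^ k) ^ (-(a / 2))) * z := by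
  have h2k : (0 : ℝ) < 2 ^ k := by positivity
  have h1 : ENNReal.ofReal (((2 : ℝ) ^ k) ^ (a / 2)) ≤ w (a / 2) R := by
    unfold w
    exact ENNReal.ofReal_le_ofReal (Real.rpow_le_rpow h2k.le (le_LL hR) (by linarith))
  have h2 : ENNReal.ofReal (((2 : ℝ) ^ k) ^ (-(a / 2))) =
      (ENNReal.ofReal (((2 : ℝ) ^ k) ^ (a / 2)))⁻¹ := by
    rw [Real.rpow_neg h2k.le, ENNReal.ofReal_inv_of_pos (Real.rpow_pos_of_pos h2k _)]
  rw [h2, div_eq_mul_inv, mul_comm]
  gcongr

theorem rr_mono {k : ℕ} : rr k ≤ rr (k + 1) := by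
  unfold rr
  refine Real.exp_le_exp.2 (Real.exp_le_exp.2 ?_)
  exact pow_le_pow_right₀ (by norm_num) (by omega)

theorem exists_rr (R : ℝ) : ∃ k : ℕ, R ≤ rr k := by
  obtain ⟨k, hk⟩ := exists_nat_ge R
  refine ⟨k, hk.trans ?_⟩
  unfold rr
  have h1 : (k : ℝ) ≤ 2 ^ k := by
    have := (Nat.lt_two_pow_self (n := k)).le
    exact_mod_cast this
  have h2 := Real.add_one_le_exp ((2 : ℝ) ^ k)
  have h3 := Real.add_one_le_exp (Real.exp ((2 : ℝ) ^ k))
  linarith

end GDC_

open GDC_

theorem p_GDC : T_GDC := by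
  refine ⟨?_, ?_, ?_⟩
  · intro g a x ha hg hfin R hR
    rcases le_or_gt R (rr 0) with h0 | h0
    · left
      refine (div_w_le ha hR.le _).trans ?_
      have e : ∫ ξ in Metric.closedBall (0 : E 2) R, g ξ * ex x ξ =
          ∫ ξ in Metric.closedBall (0 : E 2) R,
            (Metric.closedBall (0 : E 2) (rr 0)).indicator g ξ * ex x ξ := by
        refine setIntegral_congr_fun Metric.isClosed_closedBall.measurableSet fun ξ hξ => ?_
        have : ξ ∈ Metric.closedBall (0 : E 2) (rr 0) :=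
          Metric.closedBall_subset_closedBall h0 hξ
        simp only [indicator_of_mem this]
      rw [e]
      exact le_Mx _ x hR
    · right
      have hex := exists_rr R
      obtain ⟨k, hk⟩ : ∃ k, Nat.find hex = k + 1 := by
        rcases Nat.eq_zero_or_pos (Nat.find hex) with h | h
        · exfalso
          have h1 := Nat.find_spec hex
          rw [h] at h1
          linarith
        · exact ⟨Nat.find hex - 1, by omega⟩
      have hk1 : R ≤ rr (k + 1) := by
        have := Nat.find_spec hex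
        rwa [hk] at this
      have hk0 : rr k < R := by
        have := Nat.find_min hex (m := k) (by omega)
        exact not_le.1 this
      refine ⟨k, ?_⟩
      set D := Metric.closedBall (0 : E 2) (rr (k + 1)) \ Metric.closedBall (0 : E 2) (rr k)
        with hD
      have hsub : Metric.closedBall (0 : E 2) (rr k) ⊆ Metric.closedBall (0 : E 2) R :=
        Metric.closedBall_subset_closedBall hk0.le
      have e1 : ∫ ξ in Metric.closedBall (0 : E 2) R, g ξ * ex x ξ =
          (∫ ξ in Metric.closedBall (0 : E 2) (rr k), g ξ * ex x ξ) +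
          ∫ ξ in Metric.closedBall (0 : E 2) R, D.indicator g ξ * ex x ξ := by
        have h1 := setIntegral_sdiff (μ := volume) Metric.isClosed_closedBall.measurableSet
          (int_ex hg hfin x R) hsub
        have h2 : ∫ ξ in Metric.closedBall (0 : E 2) R, D.indicator g ξ * ex x ξ =
            ∫ ξ in Metric.closedBall (0 : E 2) R \ Metric.closedBall (0 : E 2) (rr k),
              g ξ * ex x ξ := by
          have hDm : MeasurableSet D :=
            Metric.isClosed_closedBall.measurableSet.diff Metric.isClosed_closedBall.measurableSet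
          have h3 : (fun ξ => D.indicator g ξ * ex x ξ) =
              D.indicator (fun ξ => g ξ * ex x ξ) := by
            funext ξ
            by_cases hξ : ξ ∈ D
            · simp only [indicator_of_mem hξ]
            · simp only [indicator_of_notMem hξ, zero_mul]
          rw [h3, setIntegral_indicator hDm]
          congr 2
          ext ξ
          simp only [hD, mem_inter_iff, Set.mem_sdiff, Metric.mem_closedBall, dist_zero_right]
          constructor
          · rintro ⟨h4, h5, h6⟩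
            exact ⟨h4, h6⟩
          · rintro ⟨h4, h5⟩
            exact ⟨h4, h4.trans hk1, h5⟩
        rw [h2, h1]
        ring
      rw [e1]
      calc ‖(∫ ξ in Metric.closedBall (0 : E 2) (rr k), g ξ * ex x ξ) +
            ∫ ξ in Metric.closedBall (0 : E 2) R, D.indicator g ξ * ex x ξ‖ₑ / w (a / 2) R
          ≤ (‖∫ ξ in Metric.closedBall (0 : E 2) (rr k), g ξ * ex x ξ‖ₑ +
            ‖∫ ξ in Metric.closedBall (0 : E 2) R, D.indicator g ξ * ex x ξ‖ₑ) / w (a / 2) R :=
            ENNReal.div_le_div_right (enorm_add_le _ _) _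
        _ = ‖∫ ξ in Metric.closedBall (0 : E 2) (rr k), g ξ * ex x ξ‖ₑ / w (a / 2) R +
            ‖∫ ξ in Metric.closedBall (0 : E 2) R, D.indicator g ξ * ex x ξ‖ₑ / w (a / 2) R :=
            ENNReal.add_div
        _ ≤ ‖∫ ξ in Metric.closedBall (0 : E 2) (rr k), g ξ * ex x ξ‖ₑ +
            ENNReal.ofReal (((2 : ℝ) ^ k) ^ (-(a / 2))) *
              ‖∫ ξ in Metric.closedBall (0 : E 2) R, D.indicator g ξ * ex x ξ‖ₑ :=
            add_le_add (div_w_le ha hR.le _) (div_w_le' ha hk0 _)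
        _ ≤ _ := by
            gcongr
            exact le_Mx _ x hR
  · intro k d hd h
    exact ⟨one_le_LL hd, LL_le hd h⟩
  · intro e ξ he
    refine ⟨norm_nonneg _, ?_⟩
    unfold dl
    have h1 : ‖ξ - (inner ℝ e ξ : ℝ) • e‖ ^ 2 = ‖ξ‖ ^ 2 - (inner ℝ e ξ : ℝ) ^ 2 := by
      rw [norm_sub_sq_real, inner_smul_right, norm_smul, he, real_inner_comm, Real.norm_eq_abs,
        mul_one, sq_abs]
      ring
    refine le_of_sq_le_sq ?_ (norm_nonneg _)
    rw [h1]
    nlinarith [sq_nonneg (inner ℝ e ξ : ℝ)]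

end Pool.Agent.GRO
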