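import Pool.Agent.CRF.Targets

set_option autoImplicit false

/-!
# GRO: two-parameter form of LogLogLines (MP_ee701d_an); growth of the disc partial sums of every `f ∈ L²(ℝ²)`

`L(t) = log(3 + log(3 + t))`. For `0 ≤ a ≤ 12`: `∫_B sup_R |S_R g|²/L(R)^a ≤ C N ∫ |g|² L(d)^(12-a)`; for `0 ≤ a ≤ 11`:
`S_R g - F = o(L(R)^(a/2))` a.e. if `∫ |g|² L(d)^(11-a) < ∞` (`a = 11`: every `g ∈ L²`). Every target `T_X` is to be proved as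
`theorem p_X : T_X` (other targets may be taken as hypotheses) in a NEW file `Pool/Agent/GRO/P_X.lean`.
-/

namespace Pool.Agent.GRO

open MeasureTheory FourierTransform Set Filter Topology
open scoped ENNReal NNReal
open Pool.Agent.MBS (E ex S)
open Pool.Agent.CRN (T_CARLS)
open Pool.Agent.CRF (Mx dl w2 T_LLW T_FPW T_FRT T_FDN T_FFS)

/-- `log(3 + log(3 + t))` -/
noncomputable def LL (t : ℝ) : ℝ := Real.log (3 + Real.log (3 + t))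

/-- the weight `LL(t)^a` -/
noncomputable def w (a t : ℝ) : ℝ≥0∞ := ENNReal.ofReal (LL t ^ a)

/-- the maximal disc partial integrals divided by `LL(R)^(a/2)` -/
noncomputable def Ma (a : ℝ) (g : E 2 → ℂ) (x : E 2) : ℝ≥0∞ :=
  ⨆ (R : ℝ) (_ : 0 < R), ‖∫ ξ in Metric.closedBall (0 : E 2) R, g ξ * ex x ξ‖ₑ / w (a / 2) R

/-- lacunary radii, for `f ∈ L¹ ∩ L²` (special case `δ = 1/2` of the landed `Pool.Agent.SEnd.fDSs`) -/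
def T_DS2 : Prop := ∃ C : ℝ≥0, ∀ (A : Set ℝ) (f : E 2 → ℂ), (∀ R ∈ A, 0 < R) →
  (∀ R ∈ A, ∀ R' ∈ A, R < R' → R + 1 / 2 * R' ≤ R') → Measurable f → Integrable f → MemLp f 2 →
    ∫⁻ x, (⨆ R ∈ A, ‖S f R x‖ₑ) ^ 2 ≤ C * ∫⁻ x, ‖f x‖ₑ ^ 2

/-- the radii `e^(e^(2^k))` -/
noncomputable def rr (k : ℕ) : ℝ := Real.exp (Real.exp (2 ^ k))

/-- **GLC** (60 min; from DS2, Plancherel). For all `g ∈ L²`: for finitely many `k ≤ K` only `g 1_{‖ξ‖ ≤ rr K} ∈ L¹ ∩ L²` matters;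
approximate it in `L²` by `𝓕 f_n`, `f_n` Schwartz functions: the integrals over the balls converge, Fatou; `K → ∞` monotone
convergence. (`rr k ≤ rr (k+1) / 2`.) Approximation: see `CRF/P_RMG.lean`, `GRO` needs nothing new. -/
def T_GLC : Prop := ∃ C : ℝ≥0, ∀ g : E 2 → ℂ, Measurable g →
  ∫⁻ x, (⨆ k : ℕ, ‖∫ ξ in Metric.closedBall (0 : E 2) (rr k), g ξ * ex x ξ‖ₑ) ^ 2 ≤
    C * ∫⁻ ξ, ‖g ξ‖ₑ ^ 2

/-- **GDC** (45 min): the splitting. `g_0 = g 1_{‖ξ‖ ≤ rr 0}`, `g_{k+1} = g 1_{rr k < ‖ξ‖ ≤ rr (k+1)}`. For `rr k < R ≤ rr (k+1)`: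
`∫_{‖ξ‖≤R} g = ∫_{‖ξ‖ ≤ rr k} g + ∫_{‖ξ‖≤R} g_{k+1}`, and `LL(R)^a ≥ (2^k)^a`, `LL ≥ 1`. (`g` is integrable on balls if
`∫ |g|² < ∞`.) Second part: `LL(d) ≤ 4 · 2^k` for `d ≤ rr k`. -/
def T_GDC : Prop :=
  (∀ (g : E 2 → ℂ) (a : ℝ) (x : E 2), 0 ≤ a → Measurable g → ∫⁻ ξ, ‖g ξ‖ₑ ^ 2 ≠ ⊤ →
    ∀ R : ℝ, 0 < R → (‖∫ ξ in Metric.closedBall (0 : E 2) R, g ξ * ex x ξ‖ₑ / w (a / 2) R ≤
        Mx ((Metric.closedBall (0 : E 2) (rr 0)).indicator g) x) ∨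
      ∃ k : ℕ, ‖∫ ξ in Metric.closedBall (0 : E 2) R, g ξ * ex x ξ‖ₑ / w (a / 2) R ≤
        ‖∫ ξ in Metric.closedBall (0 : E 2) (rr k), g ξ * ex x ξ‖ₑ +
        ENNReal.ofReal (((2 : ℝ) ^ k) ^ (-(a / 2))) *
          Mx ((Metric.closedBall (0 : E 2) (rr (k + 1)) \ Metric.closedBall (0 : E 2) (rr k)).indicator
            g) x) ∧
  (∀ (k : ℕ) (d : ℝ), 0 ≤ d → d ≤ rr k → 1 ≤ LL d ∧ LL d ≤ 4 * 2 ^ k) ∧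
  (∀ (e ξ : E 2), ‖e‖ = 1 → 0 ≤ dl e ξ ∧ dl e ξ ≤ ‖ξ‖)

/-- **GSS** (75 min; from `CRF.T_FFS` applied, GLC, GDC): the strong two-parameter inequality. `Ma a g ≤
Mx g_0 + sup_k |S_{rr k}| + (Σ_k 2^{-ka} Mx(g_{k+1})²)^{1/2}`; the strong inequality for each `g_k` (weight
`LL(d)^12 = LL(d)^(12-a) LL(d)^a ≤ LL(d)^(12-a) (8 · 2^k)^a` on the support of `g_{k+1}`), the supports are disjoint; GLC and
`1 ≤ LL(d)^(12-a)`, `1 ≤ |D|`. We may assume `∫ |g|² < ∞` (the weight is `≥ 1`). Note `‖·‖²/w a R = (‖·‖/w (a/2) R)²`. -/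
def T_GSS : Prop := ∃ C : ℝ≥0, ∀ (a : ℝ) (D : Finset (E 2)) (h : D.Nonempty)
  (g : E 2 → ℂ) (x0 : E 2), 0 ≤ a → a ≤ 12 → (∀ e ∈ D, ‖e‖ = 1) → Measurable g →
    ∫⁻ x in Metric.closedBall x0 1, Ma a g x ^ 2 ≤
      C * D.card * ∫⁻ ξ, ‖g ξ‖ₑ ^ 2 * w (12 - a) (D.inf' h (fun e => dl e ξ))

/-- weak type inequality for finitely many lines -/
def T_WDX : Prop := ∀ (D : Finset (E 2)) (h : D.Nonempty), (∀ e ∈ D, ‖e‖ = 1) → ∃ C : ℝ≥0,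
  ∀ (g : E 2 → ℂ) (x0 : E 2) (l : ℝ≥0∞), Measurable g →
    l ^ 2 * volume {x ∈ Metric.closedBall x0 1 | l < Mx g x} ≤
      C * ∫⁻ ξ, ‖g ξ‖ₑ ^ 2 * w2 11 (D.inf' h (fun e => dl e ξ))

/-- **WDX** (20 min): this is proved inside `CRF/P_FFW.lean` (`hone`, then FDN). -/
def T_WDX0 : Prop := T_CARLS → T_LLW → T_FPW → T_FRT → T_FDN → T_WDX

/-- **GSW** (75 min; from WDX, GLC, GDC): the weak two-parameter inequality, as GSS: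
`{Ma a g > l} ⊆ {Mx g_0 > l/2} ∪ {sup_k |S_{rr k}| > l/2} ∪ ⋃_k {Mx g_{k+1} > 2^{ka/2} l/2}`. (`l = ∞`: the set is empty.) -/
def T_GSW : Prop := ∀ (D : Finset (E 2)) (h : D.Nonempty), (∀ e ∈ D, ‖e‖ = 1) → ∃ C : ℝ≥0,
  ∀ (a : ℝ) (g : E 2 → ℂ) (x0 : E 2) (l : ℝ≥0∞), 0 ≤ a → a ≤ 11 → Measurable g →
    l ^ 2 * volume {x ∈ Metric.closedBall x0 1 | l < Ma a g x} ≤
      C * ∫⁻ ξ, ‖g ξ‖ₑ ^ 2 * w (11 - a) (D.inf' h (fun e => dl e ξ))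

/-- **GAE** (75 min; from GSW, Plancherel): convergence. The weight is `≥ 1`, so `g ∈ L²`; `F` = the `L²` limit of
`S_R = ∫_{‖ξ‖ ≤ R} g ex x ξ` (Plancherel, Cauchy). `g_j = g 1_{‖ξ‖ ≤ j} ∈ L¹ ∩ L²`. For `R ≥ j` `S_R - S_j = ∫_{‖ξ‖≤R} (g - g_j) ex`, so
`limsup_R |S_R x - F x| / LL(R)^(a/2) ≤ Ma a (g - g_j) x + |S_j x - F x|` (`LL ≥ 1`); GSW for `g - g_j` (dominated convergence) and
`‖S_j - F‖₂ → 0`: so `{x ∈ B : limsup > 2ε}` is a null set for every unit disc `B`. See `CRF/P_FAE.lean`. -/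
def T_GAE : Prop := ∀ (a : ℝ) (D : Finset (E 2)) (h : D.Nonempty) (g : E 2 → ℂ), 0 ≤ a → a ≤ 11 →
  (∀ e ∈ D, ‖e‖ = 1) → Measurable g →
  ∫⁻ ξ, ‖g ξ‖ₑ ^ 2 * w (11 - a) (D.inf' h (fun e => dl e ξ)) ≠ ⊤ →
    ∃ F : E 2 → ℂ, MemLp F 2 ∧
      Tendsto (fun R : ℝ => ∫⁻ x, ‖(∫ ξ in Metric.closedBall (0 : E 2) R, g ξ * ex x ξ) - F x‖ₑ ^ 2)
        atTop (𝓝 0) ∧
      ∀ᵐ x, Tendsto (fun R : ℝ =>
        ‖(∫ ξ in Metric.closedBall (0 : E 2) R, g ξ * ex x ξ) - F x‖ / LL R ^ (a / 2)) atTop (𝓝 0)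

end Pool.Agent.GRO
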