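import Pool.Agent.GRO.Targets
import Pool.Agent.CRF.P_FPS

set_option autoImplicit false

/-!
# GRO: the strong two-parameter inequality, from `CRF.T_FFS`, `T_GLC`, `T_GDC`
-/

namespace Pool.Agent.GRO

open MeasureTheory FourierTransform Set Filter Topology
open scoped ENNReal NNReal
open Pool.Agent.MBS (E ex S)
open Pool.Agent.CRN (T_CARLS)
open Pool.Agent.CRF (Mx dl w2)

namespace GSS_

theorem wt {a y t : ℝ} (h0 : 0 ≤ a) (h1 : a ≤ 12) (hy : 1 ≤ y) (ht : 1 ≤ t) (h : y ≤ 8 * t) :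
    (t ^ (-(a / 2))) ^ 2 * y ^ 12 ≤ 8 ^ 12 * y ^ (12 - a) := by
  have hy0 : (0 : ℝ) < y := by linarith
  have ht0 : (0 : ℝ) < t := by linarith
  have e1 : y ^ 12 = y ^ (12 - a) * y ^ a := by
    rw [← Real.rpow_add hy0, ← Real.rpow_natCast y 12]
    congr 1
    push_cast
    ring
  have e2 : (t ^ (-(a / 2))) ^ 2 = t ^ (-a) := by
    rw [← Real.rpow_natCast, ← Real.rpow_mul ht0.le]
    congr 1
    push_cast
    ring
  have e3 : y ^ a ≤ 8 ^ a * t ^ a := by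
    rw [← Real.mul_rpow (by norm_num) ht0.le]
    exact Real.rpow_le_rpow hy0.le h h0
  have e4 : (8 : ℝ) ^ a ≤ 8 ^ 12 := by
    rw [← Real.rpow_natCast 8 12]
    exact Real.rpow_le_rpow_of_exponent_le (by norm_num) (by exact_mod_cast h1)
  have e5 : t ^ (-a) * t ^ a = 1 := by
    rw [← Real.rpow_add ht0]
    simp
  have p1 : 0 < t ^ (-a) := Real.rpow_pos_of_pos ht0 _
  have p2 : 0 < y ^ (12 - a) := Real.rpow_pos_of_pos hy0 _
  rw [e1, e2]
  calc t ^ (-a) * (y ^ (12 - a) * y ^ a) ≤ t ^ (-a) * (y ^ (12 - a) * (8 ^ a * t ^ a)) := by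
        gcongr
    _ = (t ^ (-a) * t ^ a) * (8 ^ a * y ^ (12 - a)) := by ring
    _ = 8 ^ a * y ^ (12 - a) := by rw [e5, one_mul]
    _ ≤ 8 ^ 12 * y ^ (12 - a) := by gcongr

/-- the same with the weights -/
theorem wt' {a d t : ℝ} (h0 : 0 ≤ a) (h1 : a ≤ 12) (hy : 1 ≤ LL d) (ht : 1 ≤ t)
    (h : LL d ≤ 8 * t) :
    ENNReal.ofReal (t ^ (-(a / 2))) ^ 2 * w2 12 d ≤ 8 ^ 12 * w (12 - a) d := by
  have ht0 : (0 : ℝ) < t := by linarith
  have hb : (0 : ℝ) ≤ t ^ (-(a / 2)) := (Real.rpow_pos_of_pos ht0 _).le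
  have e8 : (8 : ℝ≥0∞) ^ 12 = ENNReal.ofReal (8 ^ 12) := by
    rw [ENNReal.ofReal_pow (by norm_num)]
    norm_num
  unfold w2 w
  rw [← ENNReal.ofReal_pow hb, ← ENNReal.ofReal_mul (by positivity), e8,
    ← ENNReal.ofReal_mul (by norm_num)]
  exact ENNReal.ofReal_le_ofReal (wt h0 h1 hy ht h)

theorem half_sq (x : ℝ≥0∞) : (x ^ (1 / 2 : ℝ)) ^ 2 = x := by
  rw [← ENNReal.rpow_natCast, ← ENNReal.rpow_mul]
  norm_num

theorem sq_half (x : ℝ≥0∞) : (x ^ 2) ^ (1 / 2 : ℝ) = x := by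
  rw [← ENNReal.rpow_natCast, ← ENNReal.rpow_mul]
  norm_num

theorem LL_ge {t : ℝ} (ht : 0 ≤ t) : 1 ≤ LL t := by
  unfold LL
  have h := Pool.Agent.CRF.FPS_.log3_ge ht
  exact Pool.Agent.CRF.FPS_.log3_ge (by linarith)

theorem one_le_w {b t : ℝ} (hb : 0 ≤ b) (ht : 0 ≤ t) : 1 ≤ w b t := by
  unfold w
  rw [← ENNReal.ofReal_one]
  exact ENNReal.ofReal_le_ofReal (Real.one_le_rpow (LL_ge ht) hb)

/-- the annuli -/
def An (k : ℕ) : Set (E 2) :=
  Metric.closedBall (0 : E 2) (rr (k + 1)) \ Metric.closedBall (0 : E 2) (rr k)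

theorem An_meas (k : ℕ) : MeasurableSet (An k) :=
  Metric.isClosed_closedBall.measurableSet.diff Metric.isClosed_closedBall.measurableSet

theorem rr_mono : Monotone rr := by
  intro i j h
  unfold rr
  refine Real.exp_le_exp.2 (Real.exp_le_exp.2 ?_)
  exact pow_le_pow_right₀ (by norm_num) h

theorem An_disj : Pairwise (Function.onFun Disjoint An) := by
  intro i j hij
  rw [Function.onFun, Set.disjoint_left]
  intro ξ hi hj
  unfold An at hi hj
  rw [Set.mem_sdiff, Metric.mem_closedBall, Metric.mem_closedBall] at hi hj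
  rcases lt_or_gt_of_ne hij with h | h
  · exact hj.2 (hi.1.trans (rr_mono (by omega)))
  · exact hi.2 (hj.1.trans (rr_mono (by omega)))

theorem ind_sq (P : Set (E 2)) (g : E 2 → ℂ) (v : E 2 → ℝ≥0∞) (ξ : E 2) :
    ‖P.indicator g ξ‖ₑ ^ 2 * v ξ = P.indicator (fun ξ => ‖g ξ‖ₑ ^ 2 * v ξ) ξ := by
  by_cases h : ξ ∈ P
  · rw [Set.indicator_of_mem h, Set.indicator_of_mem h]
  · rw [Set.indicator_of_notMem h, Set.indicator_of_notMem h]; simp

end GSS_

open GSS_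

theorem p_GSS (h1 : Pool.Agent.CRF.T_FFS) (h2 : T_CARLS) (h3 : Pool.Agent.CRF.T_LLL)
    (h4 : T_GLC) (h5 : T_GDC) : T_GSS := by
  obtain ⟨C1, hC1⟩ := h1 h2 h3
  obtain ⟨C2, hC2⟩ := h4
  obtain ⟨d1, d2, d3⟩ := h5
  refine ⟨4 * 8 ^ 12 * C1 + 4 * C2 + 4 * 8 ^ 12 * C1 + 1, ?_⟩
  intro a D h g x0 ha0 ha hD hg
  set W : E 2 → ℝ := fun ξ => D.inf' h (fun e => dl e ξ) with hW
  set I : ℝ≥0∞ := ∫⁻ ξ, ‖g ξ‖ₑ ^ 2 * w (12 - a) (W ξ) with hI
  have hW0 : ∀ ξ, 0 ≤ W ξ := fun ξ => by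
    rw [hW]
    simp only [Finset.le_inf'_iff]
    exact fun e he => (d3 e ξ (hD e he)).1
  have hW1 : ∀ ξ, W ξ ≤ ‖ξ‖ := fun ξ => by
    obtain ⟨e, he⟩ := h
    exact (Finset.inf'_le (fun e => dl e ξ) he).trans (d3 e ξ (hD e he)).2
  have hw1 : ∀ ξ, 1 ≤ w (12 - a) (W ξ) := fun ξ => one_le_w (by linarith) (hW0 ξ)
  have hcard : (1 : ℝ≥0∞) ≤ D.card := by
    exact_mod_cast h.card_pos
  have hgI : ∫⁻ ξ, ‖g ξ‖ₑ ^ 2 ≤ I :=
    lintegral_mono fun ξ => le_mul_of_one_le_right' (hw1 ξ)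
  have hWm : Measurable W := by
    have : Continuous W := by
      rw [hW]
      refine Continuous.finset_inf'_apply h fun e _ => ?_
      unfold dl
      fun_prop
    exact this.measurable
  have hwm : Measurable fun ξ => w (12 - a) (W ξ) := by
    unfold w LL
    refine ENNReal.measurable_ofReal.comp ?_
    refine Measurable.pow_const ?_ _
    refine Real.measurable_log.comp ?_
    refine Measurable.const_add ?_ 3
    exact Real.measurable_log.comp (hWm.const_add 3)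
  have hFm : Measurable fun ξ => ‖g ξ‖ₑ ^ 2 * w (12 - a) (W ξ) :=
    (hg.enorm.pow_const 2).mul hwm
  by_cases hfin : ∫⁻ ξ, ‖g ξ‖ₑ ^ 2 = ⊤
  · have hIt : I = ⊤ := top_unique (hfin ▸ hgI)
    have : ((4 * 8 ^ 12 * C1 + 4 * C2 + 4 * 8 ^ 12 * C1 + 1 : ℝ≥0) : ℝ≥0∞) * D.card * I = ⊤ := by
      rw [hIt, ENNReal.mul_top]
      refine mul_ne_zero ?_ ?_
      · rw [ne_eq, ENNReal.coe_eq_zero]
        positivity
      · exact (lt_of_lt_of_le one_pos hcard).ne'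
    rw [this]
    exact le_top
  -- the pieces
  set g0 : E 2 → ℂ := (Metric.closedBall (0 : E 2) (rr 0)).indicator g with hg0
  set c : ℕ → ℝ≥0∞ := fun k => ENNReal.ofReal (((2 : ℝ) ^ k) ^ (-(a / 2))) with hc
  set B : E 2 → ℝ≥0∞ := fun x =>
    ⨆ k : ℕ, ‖∫ ξ in Metric.closedBall (0 : E 2) (rr k), g ξ * ex x ξ‖ₑ with hB
  have hcb : MeasurableSet (Metric.closedBall (0 : E 2) (rr 0)) :=
    Metric.isClosed_closedBall.measurableSet
  have hg0m : Measurable g0 := hg.indicator hcb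
  have hgkm : ∀ k, Measurable ((An k).indicator g) := fun k => hg.indicator (An_meas k)
  have hpt : ∀ x, Ma a g x ^ 2 ≤ 4 * Mx g0 x ^ 2 + 4 * B x ^ 2 +
      4 * ∑' k, c k ^ 2 * Mx ((An k).indicator g) x ^ 2 := by
    intro x
    set X : ℝ≥0∞ := 4 * Mx g0 x ^ 2 + 4 * B x ^ 2 +
      4 * ∑' k, c k ^ 2 * Mx ((An k).indicator g) x ^ 2 with hX
    have key : Ma a g x ≤ X ^ (1 / 2 : ℝ) := by
      unfold Ma
      refine iSup₂_le fun R hR => ?_
      rw [← sq_half (‖∫ ξ in Metric.closedBall (0 : E 2) R, g ξ * ex x ξ‖ₑ / w (a / 2) R)]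
      refine ENNReal.rpow_le_rpow ?_ (by norm_num)
      rcases d1 g a x ha0 hg hfin R hR with hA | ⟨k, hk⟩
      · refine (pow_le_pow_left' hA 2).trans ?_
        rw [hX]
        refine le_trans ?_ (le_add_right (le_add_right le_rfl))
        exact le_mul_of_one_le_left' (by norm_num)
      · refine (pow_le_pow_left' hk 2).trans ?_
        refine (Pool.Agent.CRF.FPS_.sq_add_le _ _).trans ?_
        rw [hX]
        have t1 : ‖∫ ξ in Metric.closedBall (0 : E 2) (rr k), g ξ * ex x ξ‖ₑ ≤ B x :=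
          le_iSup (fun k : ℕ => ‖∫ ξ in Metric.closedBall (0 : E 2) (rr k), g ξ * ex x ξ‖ₑ) k
        have t2 : (c k * Mx ((An k).indicator g) x) ^ 2 ≤
            ∑' k, c k ^ 2 * Mx ((An k).indicator g) x ^ 2 := by
          rw [mul_pow]
          exact ENNReal.le_tsum (f := fun k => c k ^ 2 * Mx ((An k).indicator g) x ^ 2) k
        have t3 : 4 * ‖∫ ξ in Metric.closedBall (0 : E 2) (rr k), g ξ * ex x ξ‖ₑ ^ 2 ≤
            4 * Mx g0 x ^ 2 + 4 * B x ^ 2 := by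
          refine le_add_left ?_
          gcongr
        refine add_le_add t3 ?_
        gcongr
        exact t2
    calc Ma a g x ^ 2 ≤ (X ^ (1 / 2 : ℝ)) ^ 2 := by gcongr
      _ = X := half_sq X
  -- integrate
  have m0 : Measurable fun x => 4 * Mx g0 x ^ 2 :=
    ((Pool.Agent.CRF.FPS_.Mx_meas hg0m).pow_const 2).const_mul _
  have mB : Measurable B := by
    rw [hB]
    refine Measurable.iSup fun k => ?_
    exact (Pool.Agent.CRF.FPS_.cont_int hg _).measurable.enorm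
  have mB2 : Measurable fun x => 4 * B x ^ 2 := (mB.pow_const 2).const_mul _
  have mk : ∀ k, Measurable fun x => c k ^ 2 * Mx ((An k).indicator g) x ^ 2 := fun k =>
    ((Pool.Agent.CRF.FPS_.Mx_meas (hgkm k)).pow_const 2).const_mul _
  have i0 : ∫⁻ x in Metric.closedBall x0 1, 4 * Mx g0 x ^ 2 ≤ 4 * 8 ^ 12 * C1 * D.card * I := by
    rw [lintegral_const_mul _ ((Pool.Agent.CRF.FPS_.Mx_meas hg0m).pow_const 2)]
    have s1 := hC1 D h g0 x0 hD hg0m
    have s2 : ∫⁻ ξ, ‖g0 ξ‖ₑ ^ 2 * w2 12 (D.inf' h (fun e => dl e ξ)) ≤ 8 ^ 12 * I := by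
      rw [hI, ← lintegral_const_mul _ hFm]
      refine lintegral_mono fun ξ => ?_
      have := ind_sq (Metric.closedBall (0 : E 2) (rr 0)) g (fun ξ => w2 12 (W ξ)) ξ
      simp only
      refine (le_of_eq this).trans ?_
      by_cases hx : ξ ∈ Metric.closedBall (0 : E 2) (rr 0)
      · rw [Set.indicator_of_mem hx]
        have hn : ‖ξ‖ ≤ rr 0 := by simpa using hx
        have hd := d2 0 (W ξ) (hW0 ξ) ((hW1 ξ).trans hn)
        have hh := wt' (t := 1) ha0 ha hd.1 le_rfl (by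
          have := hd.2
          norm_num at this
          linarith)
        rw [Real.one_rpow, ENNReal.ofReal_one, one_pow, one_mul] at hh
        calc ‖g ξ‖ₑ ^ 2 * w2 12 (W ξ) ≤ ‖g ξ‖ₑ ^ 2 * (8 ^ 12 * w (12 - a) (W ξ)) := by gcongr
          _ = 8 ^ 12 * (‖g ξ‖ₑ ^ 2 * w (12 - a) (W ξ)) := by ring
      · rw [Set.indicator_of_notMem hx]
        exact zero_le
    calc 4 * ∫⁻ x in Metric.closedBall x0 1, Mx g0 x ^ 2
        ≤ 4 * (C1 * D.card * (8 ^ 12 * I)) := by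
          gcongr
          exact s1.trans (by gcongr)
      _ = 4 * 8 ^ 12 * C1 * D.card * I := by ring
  have iB : ∫⁻ x in Metric.closedBall x0 1, 4 * B x ^ 2 ≤ 4 * C2 * D.card * I := by
    rw [lintegral_const_mul _ (mB.pow_const 2)]
    have s1 : ∫⁻ x in Metric.closedBall x0 1, B x ^ 2 ≤ C2 * I :=
      (setLIntegral_le_lintegral _ _).trans ((hC2 g hg).trans (by gcongr))
    calc 4 * ∫⁻ x in Metric.closedBall x0 1, B x ^ 2 ≤ 4 * (C2 * I) := by gcongr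
      _ = 4 * C2 * 1 * I := by ring
      _ ≤ 4 * C2 * D.card * I := by gcongr
  have ik : ∀ k, ∫⁻ x in Metric.closedBall x0 1, c k ^ 2 * Mx ((An k).indicator g) x ^ 2 ≤
      C1 * D.card * (8 ^ 12 * ∫⁻ ξ in An k, ‖g ξ‖ₑ ^ 2 * w (12 - a) (W ξ)) := by
    intro k
    rw [lintegral_const_mul _ ((Pool.Agent.CRF.FPS_.Mx_meas (hgkm k)).pow_const 2)]
    have s1 := hC1 D h ((An k).indicator g) x0 hD (hgkm k)
    have hw2m : Measurable fun ξ => w2 12 (W ξ) := by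
      unfold w2
      refine ENNReal.measurable_ofReal.comp ?_
      refine Measurable.pow_const ?_ _
      refine Real.measurable_log.comp ?_
      refine Measurable.const_add ?_ 3
      exact Real.measurable_log.comp (hWm.const_add 3)
    have s2 : c k ^ 2 * ∫⁻ ξ, ‖(An k).indicator g ξ‖ₑ ^ 2 * w2 12 (W ξ) ≤
        8 ^ 12 * ∫⁻ ξ in An k, ‖g ξ‖ₑ ^ 2 * w (12 - a) (W ξ) := by
      have hm2 : Measurable fun ξ => ‖(An k).indicator g ξ‖ₑ ^ 2 * w2 12 (W ξ) :=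
        ((hgkm k).enorm.pow_const 2).mul hw2m
      rw [← lintegral_indicator (An_meas k), ← lintegral_const_mul _ (hFm.indicator (An_meas k)),
        ← lintegral_const_mul _ hm2]
      refine lintegral_mono fun ξ => ?_
      have := ind_sq (An k) g (fun ξ => w2 12 (W ξ)) ξ
      simp only
      rw [this]
      by_cases hx : ξ ∈ An k
      · rw [Set.indicator_of_mem hx, Set.indicator_of_mem hx]
        have hn : ‖ξ‖ ≤ rr (k + 1) := by
          have := hx.1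
          simpa using this
        have hd := d2 (k + 1) (W ξ) (hW0 ξ) ((hW1 ξ).trans hn)
        have hh := wt' (t := (2 : ℝ) ^ k) ha0 ha hd.1 (one_le_pow₀ (by norm_num)) (by
          have := hd.2
          rw [pow_succ] at this
          linarith)
        calc c k ^ 2 * (‖g ξ‖ₑ ^ 2 * w2 12 (W ξ)) = ‖g ξ‖ₑ ^ 2 * (c k ^ 2 * w2 12 (W ξ)) := by
              ring
          _ ≤ ‖g ξ‖ₑ ^ 2 * (8 ^ 12 * w (12 - a) (W ξ)) := by gcongr
          _ = 8 ^ 12 * (‖g ξ‖ₑ ^ 2 * w (12 - a) (W ξ)) := by ring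
      · rw [Set.indicator_of_notMem hx, Set.indicator_of_notMem hx]
        simp
    calc c k ^ 2 * ∫⁻ x in Metric.closedBall x0 1, Mx ((An k).indicator g) x ^ 2
        ≤ c k ^ 2 * (C1 * D.card * ∫⁻ ξ, ‖(An k).indicator g ξ‖ₑ ^ 2 * w2 12 (W ξ)) := by
          gcongr
      _ = C1 * D.card * (c k ^ 2 * ∫⁻ ξ, ‖(An k).indicator g ξ‖ₑ ^ 2 * w2 12 (W ξ)) := by ring
      _ ≤ _ := by gcongr
  have iS : ∫⁻ x in Metric.closedBall x0 1, 4 * ∑' k, c k ^ 2 * Mx ((An k).indicator g) x ^ 2 ≤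
      4 * 8 ^ 12 * C1 * D.card * I := by
    rw [lintegral_const_mul _ (Measurable.ennreal_tsum mk),
      lintegral_tsum fun k => (mk k).aemeasurable]
    have s3 : ∑' k, ∫⁻ ξ in An k, ‖g ξ‖ₑ ^ 2 * w (12 - a) (W ξ) ≤ I := by
      rw [← lintegral_iUnion An_meas An_disj]
      exact setLIntegral_le_lintegral _ _
    calc 4 * ∑' k, ∫⁻ x in Metric.closedBall x0 1, c k ^ 2 * Mx ((An k).indicator g) x ^ 2
        ≤ 4 * ∑' k, C1 * D.card * (8 ^ 12 * ∫⁻ ξ in An k, ‖g ξ‖ₑ ^ 2 * w (12 - a) (W ξ)) := by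
          gcongr with k
          exact ik k
      _ = 4 * (C1 * D.card * (8 ^ 12 * ∑' k, ∫⁻ ξ in An k, ‖g ξ‖ₑ ^ 2 * w (12 - a) (W ξ))) := by
          rw [ENNReal.tsum_mul_left, ENNReal.tsum_mul_left]
      _ ≤ 4 * (C1 * D.card * (8 ^ 12 * I)) := by gcongr
      _ = 4 * 8 ^ 12 * C1 * D.card * I := by ring
  calc ∫⁻ x in Metric.closedBall x0 1, Ma a g x ^ 2
      ≤ ∫⁻ x in Metric.closedBall x0 1, (4 * Mx g0 x ^ 2 + 4 * B x ^ 2 +
        4 * ∑' k, c k ^ 2 * Mx ((An k).indicator g) x ^ 2) := lintegral_mono fun x => hpt x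
    _ = (∫⁻ x in Metric.closedBall x0 1, 4 * Mx g0 x ^ 2) +
        (∫⁻ x in Metric.closedBall x0 1, 4 * B x ^ 2) +
        ∫⁻ x in Metric.closedBall x0 1, 4 * ∑' k, c k ^ 2 * Mx ((An k).indicator g) x ^ 2 := by
        have m0B : Measurable fun x => 4 * Mx g0 x ^ 2 + 4 * B x ^ 2 := m0.add mB2
        rw [lintegral_add_left m0B, lintegral_add_left m0]
    _ ≤ 4 * 8 ^ 12 * C1 * D.card * I + 4 * C2 * D.card * I + 4 * 8 ^ 12 * C1 * D.card * I :=
        add_le_add (add_le_add i0 iB) iS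
    _ = (4 * 8 ^ 12 * C1 + 4 * C2 + 4 * 8 ^ 12 * C1) * D.card * I := by ring
    _ ≤ (4 * 8 ^ 12 * C1 + 4 * C2 + 4 * 8 ^ 12 * C1 + 1) * D.card * I :=
        mul_le_mul' (mul_le_mul' le_self_add le_rfl) le_rfl
    _ = ((4 * 8 ^ 12 * C1 + 4 * C2 + 4 * 8 ^ 12 * C1 + 1 : ℝ≥0) : ℝ≥0∞) * D.card * I := by
        push_cast
        ring

end Pool.Agent.GRO
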