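import Pool.Agent.GRO.Targets
import Pool.Agent.CRF.P_FAE

set_option autoImplicit false

/-!
# GRO: GAE, convergence from the weak type inequality
-/

namespace Pool.Agent.GRO

open MeasureTheory FourierTransform Set Filter Topology
open scoped ENNReal NNReal
open Pool.Agent.MBS (E ex S)
open Pool.Agent.CRN (T_CARLS IN)
open Pool.Agent.CRF (Mx dl w2 T_LLW T_FPW T_FRT T_FDN T_FFS)

namespace GAE_

open Pool.Agent.CRF.FAE_

/-! ### weights -/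

theorem one_le_log3 : 1 ≤ Real.log 3 := by
  rw [Real.le_log_iff_exp_le (by norm_num)]
  have := Real.exp_one_lt_d9
  linarith

theorem LL_one {t : ℝ} (ht : 0 ≤ t) : 1 ≤ LL t := by
  unfold LL
  have h1 : 1 ≤ Real.log (3 + t) :=
    one_le_log3.trans (Real.log_le_log (by norm_num) (by linarith))
  exact one_le_log3.trans (Real.log_le_log (by norm_num) (by linarith))

theorem LLp_one {t b : ℝ} (ht : 0 ≤ t) (hb : 0 ≤ b) : 1 ≤ LL t ^ b :=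
  Real.one_le_rpow (LL_one ht) hb

theorem w_one {t b : ℝ} (ht : 0 ≤ t) (hb : 0 ≤ b) : 1 ≤ w b t := by
  unfold w
  rw [ENNReal.one_le_ofReal]
  exact LLp_one ht hb

theorem w_meas (b : ℝ) : Measurable (w b) := by
  unfold w LL
  fun_prop

theorem dl_cont {n : ℕ} (e : E n) : Continuous (dl e) := by
  unfold dl
  fun_prop

theorem dl_nonneg {n : ℕ} (e ξ : E n) : 0 ≤ dl e ξ := norm_nonneg _

/-! ### the limit in `L²` -/

theorem BI_l2 {d : ℕ} {k : E d → ℂ} (hk : Measurable k) (h2 : ∫⁻ ξ, ‖k ξ‖ₑ ^ 2 ≠ ⊤) (R : ℝ) :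
    ∫⁻ x, ‖BI k R x‖ₑ ^ 2 ≤ ∫⁻ ξ, ‖k ξ‖ₑ ^ 2 := by
  set s : Set (E d) := Metric.closedBall (0 : E d) R with hs
  have hsm : MeasurableSet s := Metric.isClosed_closedBall.measurableSet
  set h : E d → ℂ := s.indicator k with hh
  have hkL : MemLp k 2 := memLp_of_lint hk.aestronglyMeasurable h2
  have hhI : Integrable h := (intOn hk h2 R).integrable_indicator hsm
  have hhL : MemLp h 2 := hkL.indicator hsm
  have huIN : ∀ x, BI k R x = IN h x := by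
    intro x
    simp only [BI, IN, hh]
    rw [← integral_indicator hsm]
    refine integral_congr_ae (ae_of_all _ fun ξ => ?_)
    by_cases h : ξ ∈ s
    · simp only [indicator_of_mem h]
    · simp only [indicator_of_notMem h, zero_mul]
  have e1 : ∫⁻ x, ‖BI k R x‖ₑ ^ 2 = ∫⁻ x, ‖h x‖ₑ ^ 2 := by
    rw [← plancherelIN hhI hhL]
    exact lintegral_congr fun x => by rw [huIN]
  rw [e1]
  refine lintegral_mono fun ξ => ?_
  by_cases hξ : ξ ∈ s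
  · simp only [hh, indicator_of_mem hξ]
    exact le_rfl
  · simp only [hh, indicator_of_notMem hξ]
    simp

theorem eLp2 {d : ℕ} (v : E d → ℂ) :
    eLpNorm v 2 = (∫⁻ x, ‖v x‖ₑ ^ 2) ^ (1 / 2 : ℝ) := by
  rw [eLpNorm_eq_lintegral_rpow_enorm_toReal (by norm_num) (by norm_num)]
  simp only [ENNReal.toReal_ofNat, ENNReal.rpow_ofNat]

theorem eLp2_sq {d : ℕ} (v : E d → ℂ) : eLpNorm v 2 ^ 2 = ∫⁻ x, ‖v x‖ₑ ^ 2 := by
  rw [eLp2, ← ENNReal.rpow_natCast, ← ENNReal.rpow_mul]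
  norm_num

theorem tr_lim' {d : ℕ} {g : E d → ℂ} (hg : Measurable g) (h2 : ∫⁻ ξ, ‖g ξ‖ₑ ^ 2 ≠ ⊤) :
    Tendsto (fun n : ℕ => ∫⁻ ξ, ‖tr g n ξ‖ₑ ^ 2) atTop (𝓝 0) := by
  have h := tr_lim (W := fun _ : E d => (1 : ℝ≥0∞)) measurable_const hg
    (by simpa only [mul_one] using h2)
  simpa only [mul_one] using h

theorem tr_ne_top {d : ℕ} {g : E d → ℂ} (h2 : ∫⁻ ξ, ‖g ξ‖ₑ ^ 2 ≠ ⊤) (n : ℕ) :
    ∫⁻ ξ, ‖tr g n ξ‖ₑ ^ 2 ≠ ⊤ :=
  ne_top_of_le_ne_top h2 (lintegral_mono (tr_enorm_sq g n))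

theorem BI_mem {d : ℕ} {g : E d → ℂ} (hg : Measurable g) (h2 : ∫⁻ ξ, ‖g ξ‖ₑ ^ 2 ≠ ⊤) (R : ℝ) :
    MemLp (fun x => BI g R x) 2 :=
  memLp_of_lint (BI_cont (intOn hg h2 R)).aestronglyMeasurable
    (ne_top_of_le_ne_top h2 (BI_l2 hg h2 R))

theorem tr_anti {d : ℕ} (g : E d → ℂ) {N n : ℕ} (h : N ≤ n) (ξ : E d) :
    ‖tr g n ξ‖ₑ ^ 2 ≤ ‖tr g N ξ‖ₑ ^ 2 := by
  unfold tr
  by_cases h1 : ξ ∈ {ξ : E d | (n : ℝ) < ‖ξ‖}
  · have h2 : ξ ∈ {ξ : E d | (N : ℝ) < ‖ξ‖} := by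
      have h3 : (n : ℝ) < ‖ξ‖ := h1
      have h4 : (N : ℝ) ≤ n := by exact_mod_cast h
      exact lt_of_le_of_lt h4 h3
    rw [indicator_of_mem h1, indicator_of_mem h2]
  · rw [indicator_of_notMem h1]
    simp

theorem exF {d : ℕ} {g : E d → ℂ} (hg : Measurable g) (h2 : ∫⁻ ξ, ‖g ξ‖ₑ ^ 2 ≠ ⊤) :
    ∃ F : E d → ℂ, MemLp F 2 ∧
      Tendsto (fun n : ℕ => ∫⁻ x, ‖BI g n x - F x‖ₑ ^ 2) atTop (𝓝 0) := by
  have hmem : ∀ n : ℕ, MemLp (fun x => BI g n x) 2 := fun n => BI_mem hg h2 n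
  set u : ℕ → Lp ℂ 2 (volume : Measure (E d)) := fun n => (hmem n).toLp (fun x => BI g n x)
    with hu
  have key : ∀ N n m : ℕ, N ≤ n → n ≤ m →
      edist (u n) (u m) ≤ (∫⁻ ξ, ‖tr g N ξ‖ₑ ^ 2) ^ (1 / 2 : ℝ) := by
    intro N n m hN hnm
    rw [hu]
    simp only
    rw [Lp.edist_toLp_toLp, eLp2]
    refine ENNReal.rpow_le_rpow ?_ (by norm_num)
    have e1 : ∀ x, ‖((fun x => BI g n x) - fun x => BI g m x) x‖ₑ ^ 2 =
        ‖BI (tr g n) m x‖ₑ ^ 2 := by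
      intro x
      have h3 : ((fun x => BI g n x) - fun x => BI g m x) x = -BI (tr g n) m x := by
        simp only [Pi.sub_apply]
        rw [BI_split hg h2 n (R := (m : ℝ)) (by exact_mod_cast hnm) x]
        ring
      rw [h3, enorm_neg]
    rw [lintegral_congr e1]
    refine (BI_l2 (tr_meas hg n) (tr_ne_top h2 n) m).trans ?_
    exact lintegral_mono (tr_anti g hN)
  have hc : CauchySeq u := by
    rw [EMetric.cauchySeq_iff_le_tendsto_0]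
    refine ⟨fun N => (∫⁻ ξ, ‖tr g N ξ‖ₑ ^ 2) ^ (1 / 2 : ℝ), ?_, ?_⟩
    · intro n m N hn hm
      rcases le_total n m with h | h
      · exact key N n m hn h
      · rw [edist_comm]
        exact key N m n hm h
    · have h3 := (ENNReal.continuous_rpow_const (y := (1 / 2 : ℝ))).tendsto (0 : ℝ≥0∞)
      rw [ENNReal.zero_rpow_of_pos (by norm_num)] at h3
      exact h3.comp (tr_lim' hg h2)
  obtain ⟨f, hf⟩ := cauchySeq_tendsto_of_complete hc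
  refine ⟨f, Lp.memLp f, ?_⟩
  have h3 : Tendsto (fun n => edist (u n) f) atTop (𝓝 0) := tendsto_iff_edist_tendsto_0.1 hf
  have e2 : ∀ n : ℕ, ∫⁻ x, ‖BI g n x - f x‖ₑ ^ 2 = edist (u n) f ^ 2 := by
    intro n
    have e3 : edist (u n) f = eLpNorm ((fun x => BI g n x) - ⇑f) 2 := by
      conv_lhs => rw [← Lp.toLp_coeFn f (Lp.memLp f)]
      rw [hu]
      exact Lp.edist_toLp_toLp _ _ _ _
    rw [e3, eLp2_sq]
    rfl
  simp only [e2]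
  have h4 := ENNReal.Tendsto.pow (n := 2) h3
  simpa using h4

/-! ### the weight of the distance from the lines -/

theorem inf_meas (D : Finset (E 2)) (h : D.Nonempty) :
    Measurable (fun ξ => D.inf' h (fun e => dl e ξ)) := by
  have hc : Continuous (fun ξ => D.inf' h (fun e => dl e ξ)) :=
    Continuous.finset_inf'_apply h (fun e _ => dl_cont e)
  exact hc.measurable

theorem inf_nonneg (D : Finset (E 2)) (h : D.Nonempty) (ξ : E 2) :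
    0 ≤ D.inf' h (fun e => dl e ξ) :=
  Finset.le_inf' _ _ fun e _ => dl_nonneg e ξ

/-! ### the limit in `L²` along the reals -/

theorem sq_add_le (a b : ℝ≥0∞) : (a + b) ^ 2 ≤ 4 * a ^ 2 + 4 * b ^ 2 := by
  rcases le_total a b with h | h
  · calc (a + b) ^ 2 ≤ (b + b) ^ 2 := by gcongr
      _ = 4 * b ^ 2 := by ring
      _ ≤ _ := le_add_self
  · calc (a + b) ^ 2 ≤ (a + a) ^ 2 := by gcongr
      _ = 4 * a ^ 2 := by ring
      _ ≤ _ := le_self_add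

theorem lim_real {d : ℕ} {g F : E d → ℂ} (hg : Measurable g) (h2 : ∫⁻ ξ, ‖g ξ‖ₑ ^ 2 ≠ ⊤)
    (hF : Tendsto (fun n : ℕ => ∫⁻ x, ‖BI g n x - F x‖ₑ ^ 2) atTop (𝓝 0)) :
    Tendsto (fun R : ℝ => ∫⁻ x, ‖BI g R x - F x‖ₑ ^ 2) atTop (𝓝 0) := by
  have hb : ∀ (n : ℕ) (R : ℝ), (n : ℝ) ≤ R → ∫⁻ x, ‖BI g R x - F x‖ₑ ^ 2 ≤
      4 * (∫⁻ ξ, ‖tr g n ξ‖ₑ ^ 2) + 4 * ∫⁻ x, ‖BI g n x - F x‖ₑ ^ 2 := by
    intro n R hR
    calc ∫⁻ x, ‖BI g R x - F x‖ₑ ^ 2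
        ≤ ∫⁻ x, (4 * ‖BI (tr g n) R x‖ₑ ^ 2 + 4 * ‖BI g n x - F x‖ₑ ^ 2) := by
          refine lintegral_mono fun x => ?_
          have e : BI g R x - F x = BI (tr g n) R x + (BI g n x - F x) := by
            rw [BI_split hg h2 n hR x]
            ring
          rw [e]
          refine le_trans ?_ (sq_add_le _ _)
          gcongr
          exact enorm_add_le _ _
      _ = 4 * (∫⁻ x, ‖BI (tr g n) R x‖ₑ ^ 2) + 4 * ∫⁻ x, ‖BI g n x - F x‖ₑ ^ 2 := by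
          rw [lintegral_add_left, lintegral_const_mul' _ _ (by norm_num),
            lintegral_const_mul' _ _ (by norm_num)]
          exact (((BI_cont (intOn (tr_meas hg n) (tr_ne_top h2 n) R)).measurable.enorm).pow_const
            2).const_mul 4
      _ ≤ _ :=
          add_le_add_left (mul_le_mul_right (BI_l2 (tr_meas hg n) (tr_ne_top h2 n) R) 4) _
  have hs : Tendsto (fun n : ℕ => 4 * (∫⁻ ξ, ‖tr g n ξ‖ₑ ^ 2) + 4 * ∫⁻ x, ‖BI g n x - F x‖ₑ ^ 2)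
      atTop (𝓝 0) := by
    have h3 := ENNReal.Tendsto.const_mul (a := 4) (tr_lim' hg h2) (Or.inr (by norm_num))
    have h4 := ENNReal.Tendsto.const_mul (a := 4) hF (Or.inr (by norm_num))
    have h5 := h3.add h4
    simpa only [mul_zero, add_zero] using h5
  rw [ENNReal.tendsto_nhds_zero] at hs ⊢
  intro ε hε
  obtain ⟨n, hn⟩ := (hs ε hε).exists
  filter_upwards [eventually_ge_atTop (n : ℝ)] with R hR
  exact (hb n R hR).trans hn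

/-! ### frequently small tails -/

theorem cheb {d : ℕ} {u : E d → ℂ} (hu : AEMeasurable u) (l : ℝ≥0∞) :
    l ^ 2 * volume {x | l < ‖u x‖ₑ} ≤ ∫⁻ x, ‖u x‖ₑ ^ 2 := by
  have h1 : volume {x | l < ‖u x‖ₑ} ≤ volume {x | l ^ 2 ≤ ‖u x‖ₑ ^ 2} := by
    refine measure_mono fun x hx => ?_
    have hx' : l < ‖u x‖ₑ := hx
    change l ^ 2 ≤ ‖u x‖ₑ ^ 2
    gcongr
  refine le_trans (mul_le_mul_right h1 _) ?_
  exact mul_meas_ge_le_lintegral₀ (hu.enorm.pow_const 2) (l ^ 2)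

theorem freq2 {W : E 2 → ℝ≥0∞} (hW : Measurable W) {g F : E 2 → ℂ} (hg : Measurable g)
    (h2 : ∫⁻ ξ, ‖g ξ‖ₑ ^ 2 ≠ ⊤) (hFm : AEMeasurable F)
    (hF : Tendsto (fun n : ℕ => ∫⁻ x, ‖BI g n x - F x‖ₑ ^ 2) atTop (𝓝 0))
    (hG : ∫⁻ ξ, ‖g ξ‖ₑ ^ 2 * W ξ ≠ ⊤) {a : ℝ}
    (h : ∃ C : ℝ≥0, ∀ (g : E 2 → ℂ) (x0 : E 2) (l : ℝ≥0∞), Measurable g →
      l ^ 2 * volume {x ∈ Metric.closedBall x0 1 | l < Ma a g x} ≤ C * ∫⁻ ξ, ‖g ξ‖ₑ ^ 2 * W ξ)
    (x0 : E 2) :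
    ∀ᵐ x ∂(volume.restrict (Metric.closedBall x0 1)),
      ∀ m : ℕ, ∃ᶠ n : ℕ in atTop, Ma a (tr g n) x ≤ lv m ∧ ‖BI g n x - F x‖ₑ ≤ lv m := by
  obtain ⟨C, hC⟩ := h
  rw [ae_all_iff]
  intro m
  rw [ae_restrict_iff' Metric.isClosed_closedBall.measurableSet, ae_iff]
  set A : ℕ → Set (E 2) := fun n => {x ∈ Metric.closedBall x0 1 | lv m < Ma a (tr g n) x}
    with hA
  set B : ℕ → Set (E 2) := fun n => {x | lv m < ‖BI g n x - F x‖ₑ} with hB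
  have hsub : {x : E 2 | ¬ (x ∈ Metric.closedBall x0 1 →
      ∃ᶠ n : ℕ in atTop, Ma a (tr g n) x ≤ lv m ∧ ‖BI g n x - F x‖ₑ ≤ lv m)} ⊆
      ⋃ N : ℕ, ⋂ n : ℕ, (A (N + n) ∪ B (N + n)) := by
    intro x hx
    have hx' : ¬ (x ∈ Metric.closedBall x0 1 →
      ∃ᶠ n : ℕ in atTop, Ma a (tr g n) x ≤ lv m ∧ ‖BI g n x - F x‖ₑ ≤ lv m) := hx
    rw [Classical.not_imp] at hx'
    obtain ⟨h1, h3⟩ := hx'
    rw [not_frequently] at h3
    obtain ⟨N, hN⟩ := eventually_atTop.1 h3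
    refine mem_iUnion.2 ⟨N, mem_iInter.2 fun n => ?_⟩
    have h4 := hN (N + n) (Nat.le_add_right _ _)
    by_cases h5 : Ma a (tr g (N + n)) x ≤ lv m
    · right
      exact not_le.1 fun h6 => h4 ⟨h5, h6⟩
    · left
      exact ⟨h1, not_le.1 h5⟩
  refine measure_mono_null hsub (measure_iUnion_null fun N => ?_)
  have hsh : Tendsto (fun n : ℕ => N + n) atTop atTop := tendsto_atTop_mono
      (fun n => Nat.le_add_left n N) tendsto_id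
  have hlim : Tendsto (fun n : ℕ => (C : ℝ≥0∞) * (∫⁻ ξ, ‖tr g (N + n) ξ‖ₑ ^ 2 * W ξ) +
      ∫⁻ x, ‖BI g (N + n : ℕ) x - F x‖ₑ ^ 2) atTop (𝓝 0) := by
    have h1 := ENNReal.Tendsto.const_mul (tr_lim hW hg hG) (Or.inr (ENNReal.coe_ne_top (r := C)))
    rw [mul_zero] at h1
    have h3 := (h1.comp hsh).add (hF.comp hsh)
    rw [add_zero] at h3
    exact h3
  have hb : ∀ n : ℕ, lv m ^ 2 * volume (⋂ n : ℕ, (A (N + n) ∪ B (N + n))) ≤
      (C : ℝ≥0∞) * (∫⁻ ξ, ‖tr g (N + n) ξ‖ₑ ^ 2 * W ξ) +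
      ∫⁻ x, ‖BI g (N + n : ℕ) x - F x‖ₑ ^ 2 := by
    intro n
    refine le_trans (mul_le_mul_right (measure_mono (iInter_subset _ n)) _) ?_
    refine le_trans (mul_le_mul_right (measure_union_le _ _) _) ?_
    rw [mul_add]
    refine add_le_add (hC (tr g (N + n)) x0 (lv m) (tr_meas hg _)) ?_
    exact cheb (((BI_cont (intOn hg h2 _)).measurable.aemeasurable).sub hFm) (lv m)
  have h0 := ge_of_tendsto' hlim hb
  have h1 := le_antisymm h0 bot_le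
  rcases mul_eq_zero.1 h1 with h2 | h2
  · exact absurd ((pow_eq_zero_iff two_ne_zero).1 h2) (lv_pos m)
  · exact h2

theorem conv_pt {g F : E 2 → ℂ} (hg : Measurable g) (h2 : ∫⁻ ξ, ‖g ξ‖ₑ ^ 2 ≠ ⊤) {a : ℝ}
    (ha : 0 ≤ a) {x : E 2}
    (hx : ∀ m : ℕ, ∃ᶠ n : ℕ in atTop, Ma a (tr g n) x ≤ lv m ∧ ‖BI g n x - F x‖ₑ ≤ lv m) :
    Tendsto (fun R : ℝ => ‖BI g R x - F x‖ / LL R ^ (a / 2)) atTop (𝓝 0) := by
  rw [Metric.tendsto_atTop]
  intro ε hε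
  obtain ⟨m, hm⟩ := ENNReal.exists_inv_nat_lt
    (show ENNReal.ofReal (ε / 3) ≠ 0 from (ENNReal.ofReal_pos.2 (by positivity)).ne')
  have hlm : lv m < ENNReal.ofReal (ε / 3) :=
    lt_of_le_of_lt (ENNReal.inv_le_inv.2 le_self_add) hm
  obtain ⟨n, ⟨hn1, hn2⟩, hn⟩ := ((hx m).and_eventually (eventually_ge_atTop 1)).exists
  have hM : Ma a (tr g n) x < ENNReal.ofReal (ε / 3) := lt_of_le_of_lt hn1 hlm
  have hN : ‖BI g n x - F x‖ < ε / 3 := by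
    have h3 := lt_of_le_of_lt hn2 hlm
    rw [← ofReal_norm, ENNReal.ofReal_lt_ofReal_iff (by positivity)] at h3
    exact h3
  refine ⟨n, fun R hR => ?_⟩
  have hR0 : 0 < R := lt_of_lt_of_le (by exact_mod_cast hn) hR
  have hL : 1 ≤ LL R ^ (a / 2) := LLp_one hR0.le (by positivity)
  have hL0 : 0 < LL R ^ (a / 2) := lt_of_lt_of_le one_pos hL
  have h1 : ‖BI (tr g n) R x‖ₑ / w (a / 2) R ≤ Ma a (tr g n) x := by
    unfold Ma
    exact le_iSup₂ (f := fun (R : ℝ) (_ : 0 < R) => ‖BI (tr g n) R x‖ₑ / w (a / 2) R) R hR0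
  have h3 : ‖BI (tr g n) R x‖ / LL R ^ (a / 2) < ε / 3 := by
    have h4 := lt_of_le_of_lt h1 hM
    unfold w at h4
    rw [← ofReal_norm, ← ENNReal.ofReal_div_of_pos hL0,
      ENNReal.ofReal_lt_ofReal_iff (by positivity)] at h4
    exact h4
  have h5 : ‖BI g n x - F x‖ / LL R ^ (a / 2) ≤ ‖BI g n x - F x‖ :=
    div_le_self (norm_nonneg _) hL
  have e : BI g R x - F x = (BI g n x - F x) + BI (tr g n) R x := by
    rw [BI_split hg h2 n hR x]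
    ring
  have h6 : ‖BI g R x - F x‖ / LL R ^ (a / 2) ≤
      ‖BI g n x - F x‖ / LL R ^ (a / 2) + ‖BI (tr g n) R x‖ / LL R ^ (a / 2) := by
    rw [← add_div, e]
    gcongr
    exact norm_add_le _ _
  rw [Real.dist_eq, sub_zero, abs_of_nonneg (by positivity)]
  linarith

end GAE_

open GAE_ Pool.Agent.CRF.FAE_ in
/-- GAE -/
theorem p_GAE (h1 : T_GSW) : T_GAE := by
  intro a D h g ha0 ha hD hg hG
  obtain ⟨C, hC⟩ := h1 D h hD
  have hW : Measurable (fun ξ => w (11 - a) (D.inf' h (fun e => dl e ξ))) :=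
    (w_meas (11 - a)).comp (inf_meas D h)
  have hle : ∀ u : E 2 → ℂ, ∀ ξ, ‖u ξ‖ₑ ^ 2 ≤
      ‖u ξ‖ₑ ^ 2 * w (11 - a) (D.inf' h (fun e => dl e ξ)) := by
    intro u ξ
    calc ‖u ξ‖ₑ ^ 2 = ‖u ξ‖ₑ ^ 2 * 1 := (mul_one _).symm
      _ ≤ _ := mul_le_mul_right (w_one (inf_nonneg D h ξ) (by linarith)) _
  have h2 : ∫⁻ ξ, ‖g ξ‖ₑ ^ 2 ≠ ⊤ := ne_top_of_le_ne_top hG (lintegral_mono (hle g))
  obtain ⟨F, hFm, hF⟩ := exF hg h2
  refine ⟨F, hFm, lim_real hg h2 hF, ?_⟩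
  have hfr : ∀ᵐ x : E 2, ∀ m : ℕ, ∃ᶠ n : ℕ in atTop,
      Ma a (tr g n) x ≤ lv m ∧ ‖BI g n x - F x‖ₑ ≤ lv m := by
    refine ae_of_discs fun x0 => ?_
    exact freq2 hW hg h2 hFm.1.aemeasurable hF hG
      ⟨C, fun g x0 l hg => hC a g x0 l ha0 ha hg⟩ x0
  filter_upwards [hfr] with x hx
  exact conv_pt hg h2 ha0 hx

end Pool.Agent.GRO
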