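import Pool.Agent.GRO.Targets
import Pool.Agent.CRF.P_FDN

set_option autoImplicit false

/-!
# GRO, GSW: the weak two-parameter inequality
-/

namespace Pool.Agent.GRO

open MeasureTheory FourierTransform Set Filter Topology
open scoped ENNReal NNReal
open Pool.Agent.MBS (E ex S)
open Pool.Agent.CRF (Mx dl w2)

namespace GSW_

theorem LL_one {t : ℝ} (ht : 0 ≤ t) : 1 ≤ LL t := by
  unfold LL
  have h1 : 0 ≤ Real.log (3 + t) := Real.log_nonneg (by linarith)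
  rw [Real.le_log_iff_exp_le (by linarith)]
  have := Real.exp_one_lt_d9
  linarith

theorem measurable_LL : Measurable LL := by
  unfold LL
  fun_prop

theorem measurable_w (a : ℝ) : Measurable (w a) := by
  unfold w
  exact (measurable_LL.pow_const a).ennreal_ofReal

theorem one_le_w {b t : ℝ} (hb : 0 ≤ b) (ht : 0 ≤ t) : 1 ≤ w b t := by
  unfold w
  rw [← ENNReal.ofReal_one]
  exact ENNReal.ofReal_le_ofReal (Real.one_le_rpow (LL_one ht) hb)

theorem w2_le {a t B : ℝ} (ha : 0 ≤ a) (ht : 0 ≤ t) (hB : LL t ≤ B) :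
    w2 11 t ≤ ENNReal.ofReal (B ^ a) * w (11 - a) t := by
  have h1 := LL_one ht
  have h0 : 0 < LL t := by linarith
  unfold w w2
  rw [← ENNReal.ofReal_mul (Real.rpow_nonneg (by linarith) _)]
  refine ENNReal.ofReal_le_ofReal ?_
  have e : Real.log (3 + Real.log (3 + t)) ^ 11 = LL t ^ a * LL t ^ (11 - a) := by
    rw [← Real.rpow_add h0, show a + (11 - a) = ((11 : ℕ) : ℝ) by push_cast; ring,
      Real.rpow_natCast]
    rfl
  rw [e]
  exact mul_le_mul_of_nonneg_right (Real.rpow_le_rpow h0.le hB ha) (Real.rpow_nonneg h0.le _)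

theorem rr_mono {j k : ℕ} (h : j ≤ k) : rr j ≤ rr k := by
  unfold rr
  apply Real.exp_le_exp.2
  apply Real.exp_le_exp.2
  exact pow_le_pow_right₀ (by norm_num) h

/-- the shells -/
def PP (k : ℕ) : Set (E 2) :=
  Metric.closedBall (0 : E 2) (rr (k + 1)) \ Metric.closedBall (0 : E 2) (rr k)

theorem PP_meas (k : ℕ) : MeasurableSet (PP k) :=
  measurableSet_closedBall.diff measurableSet_closedBall

theorem PP_disj : Pairwise (Function.onFun Disjoint PP) := by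
  have key : ∀ j k : ℕ, j < k → Disjoint (PP j) (PP k) := by
    intro j k hjk
    rw [Set.disjoint_left]
    intro x hx hx'
    exact hx'.2 (Metric.closedBall_subset_closedBall (rr_mono hjk) hx.1)
  intro j k hjk
  rcases lt_or_gt_of_ne hjk with h | h
  · exact key j k h
  · exact (key k j h).symm

theorem S_meas {g : E 2 → ℂ} (hg : Measurable g) (R : ℝ) :
    Measurable fun x => ‖∫ ξ in Metric.closedBall (0 : E 2) R, g ξ * ex x ξ‖ₑ := by
  have h : Measurable (Function.uncurry fun (x : E 2) (ξ : E 2) => g ξ * ex x ξ) := by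
    have h1 : Measurable fun p : E 2 × E 2 => ex p.1 p.2 := MBS.J8.ex_cont.measurable
    exact (hg.comp measurable_snd).mul h1
  exact (h.stronglyMeasurable.integral_prod_right).measurable.enorm

/-- the weighted norm of a piece -/
theorem piece {a B : ℝ} {d : E 2 → ℝ} (ha : 0 ≤ a) (hd : ∀ ξ, 0 ≤ d ξ) {P : Set (E 2)}
    (hP : MeasurableSet P) (hB : ∀ ξ ∈ P, LL (d ξ) ≤ B) (g : E 2 → ℂ) :
    ∫⁻ ξ, ‖P.indicator g ξ‖ₑ ^ 2 * w2 11 (d ξ) ≤
      ENNReal.ofReal (B ^ a) * ∫⁻ ξ in P, ‖g ξ‖ₑ ^ 2 * w (11 - a) (d ξ) := by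
  rw [← lintegral_indicator hP, ← lintegral_const_mul' _ _ ENNReal.ofReal_ne_top]
  refine lintegral_mono fun ξ => ?_
  by_cases hξ : ξ ∈ P
  · rw [indicator_of_mem hξ, indicator_of_mem hξ]
    calc ‖g ξ‖ₑ ^ 2 * w2 11 (d ξ)
        ≤ ‖g ξ‖ₑ ^ 2 * (ENNReal.ofReal (B ^ a) * w (11 - a) (d ξ)) :=
          mul_le_mul' le_rfl (w2_le ha (hd ξ) (hB ξ hξ))
      _ = _ := by ring
  · rw [indicator_of_notMem hξ, indicator_of_notMem hξ]
    simp

theorem four_half (l : ℝ≥0∞) : l ^ 2 = 4 * (l / 2) ^ 2 := by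
  have h : l = 2 * (l / 2) := (ENNReal.mul_div_cancel (by norm_num) (by norm_num)).symm
  calc l ^ 2 = (2 * (l / 2)) ^ 2 := by rw [← h]
    _ = 4 * (l / 2) ^ 2 := by rw [mul_pow]; norm_num

end GSW_

open GSW_ in
theorem p_GSW (h1 : T_WDX) (h2 : T_GLC) (h3 : T_GDC) : T_GSW := by
  intro D h hD
  obtain ⟨C1, hC1⟩ := h1 D h hD
  obtain ⟨C2, hC2⟩ := h2
  obtain ⟨g1, g2, g3⟩ := h3
  refine ⟨4 * 8 ^ 11 * C1 + 4 * C2 + 4 * 8 ^ 11 * C1 + 1, ?_⟩
  intro a g x0 l ha ha11 hg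
  set d : E 2 → ℝ := fun ξ => D.inf' h (fun e => dl e ξ) with hdd
  set X : ℝ≥0∞ := ∫⁻ ξ, ‖g ξ‖ₑ ^ 2 * w (11 - a) (d ξ) with hX
  have hdb : ∀ ξ, 0 ≤ d ξ ∧ d ξ ≤ ‖ξ‖ := by
    intro ξ
    obtain ⟨e', he', h'⟩ := Finset.exists_mem_eq_inf' h (fun e => dl e ξ)
    have : d ξ = dl e' ξ := h'
    rw [this]
    exact g3 e' ξ (hD e' he')
  have hdm : Measurable d :=
    (Continuous.finset_inf'_apply h fun e _ => CRF.FDN_.dl_cont e).measurable
  have hGm : Measurable fun ξ => ‖g ξ‖ₑ ^ 2 * w (11 - a) (d ξ) :=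
    (hg.enorm.pow_const 2).mul ((measurable_w _).comp hdm)
  by_cases hXt : X = ⊤
  · rw [hXt, ENNReal.mul_top]
    · exact le_top
    · have : ((4 * 8 ^ 11 * C1 + 4 * C2 + 4 * 8 ^ 11 * C1 + 1 : ℝ≥0) : ℝ≥0∞) ≠ 0 := by
        have h0 : (4 * 8 ^ 11 * C1 + 4 * C2 + 4 * 8 ^ 11 * C1 + 1 : ℝ≥0) ≠ 0 := by positivity
        exact_mod_cast h0
      exact this
  have hgX : ∫⁻ ξ, ‖g ξ‖ₑ ^ 2 ≤ X := by
    refine lintegral_mono fun ξ => ?_
    exact le_mul_of_one_le_right' (one_le_w (by linarith) (hdb ξ).1)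
  have hg2 : ∫⁻ ξ, ‖g ξ‖ₑ ^ 2 ≠ ⊤ := ne_top_of_le_ne_top hXt hgX
  by_cases hlt : l = ⊤
  · have : {x ∈ Metric.closedBall x0 1 | l < Ma a g x} = ∅ := by
      rw [Set.eq_empty_iff_forall_notMem]
      rintro x ⟨-, hx⟩
      rw [hlt] at hx
      exact not_top_lt hx
    rw [this, measure_empty, mul_zero]
    exact zero_le
  set Sk : E 2 → ℝ≥0∞ := fun x =>
    ⨆ k : ℕ, ‖∫ ξ in Metric.closedBall (0 : E 2) (rr k), g ξ * ex x ξ‖ₑ with hSk
  have hSm : Measurable Sk := Measurable.iSup fun k => S_meas hg (rr k)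
  set g0 : E 2 → ℂ := (Metric.closedBall (0 : E 2) (rr 0)).indicator g with hg0
  set E0 : Set (E 2) := {x ∈ Metric.closedBall x0 1 | l / 2 < Mx g0 x} with hE0
  set E1 : Set (E 2) := {x | (l / 2) ^ 2 ≤ Sk x ^ 2} with hE1
  set lam : ℕ → ℝ≥0∞ := fun k => ENNReal.ofReal (((2 : ℝ) ^ k) ^ (a / 2)) * (l / 2) with hlam
  set E2 : ℕ → Set (E 2) := fun k =>
    {x ∈ Metric.closedBall x0 1 | lam k < Mx ((PP k).indicator g) x} with hE2
  have hcc : ∀ k : ℕ, ENNReal.ofReal (((2 : ℝ) ^ k) ^ (-(a / 2))) *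
      ENNReal.ofReal (((2 : ℝ) ^ k) ^ (a / 2)) = 1 := by
    intro k
    rw [← ENNReal.ofReal_mul (by positivity), ← Real.rpow_add (by positivity),
      neg_add_cancel, Real.rpow_zero, ENNReal.ofReal_one]
  have hsub : {x ∈ Metric.closedBall x0 1 | l < Ma a g x} ⊆ E0 ∪ (E1 ∪ ⋃ k, E2 k) := by
    rintro x ⟨hx, hlx⟩
    unfold Ma at hlx
    rw [lt_iSup_iff] at hlx
    obtain ⟨R, hR⟩ := hlx
    rw [lt_iSup_iff] at hR
    obtain ⟨hR0, hR⟩ := hR
    rcases g1 g a x ha hg hg2 R hR0 with hc | ⟨k, hc⟩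
    · left
      refine ⟨hx, lt_of_le_of_lt ENNReal.half_le_self (hR.trans_le hc)⟩
    · right
      by_cases hs : l / 2 ≤ Sk x
      · left
        exact pow_le_pow_left₀ zero_le hs 2
      · right
        rw [mem_iUnion]
        refine ⟨k, hx, ?_⟩
        by_contra hcon
        have hcon' := not_lt.1 hcon
        have h4 : ENNReal.ofReal (((2 : ℝ) ^ k) ^ (-(a / 2))) * Mx ((PP k).indicator g) x ≤
            l / 2 := by
          calc ENNReal.ofReal (((2 : ℝ) ^ k) ^ (-(a / 2))) * Mx ((PP k).indicator g) x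
              ≤ ENNReal.ofReal (((2 : ℝ) ^ k) ^ (-(a / 2))) * lam k := mul_le_mul' le_rfl hcon'
            _ = (ENNReal.ofReal (((2 : ℝ) ^ k) ^ (-(a / 2))) *
                ENNReal.ofReal (((2 : ℝ) ^ k) ^ (a / 2))) * (l / 2) := by
                rw [hlam]
                ring
            _ = l / 2 := by rw [hcc k, one_mul]
        have h5 : ‖∫ ξ in Metric.closedBall (0 : E 2) (rr k), g ξ * ex x ξ‖ₑ ≤ Sk x :=
          le_iSup (fun k : ℕ => ‖∫ ξ in Metric.closedBall (0 : E 2) (rr k), g ξ * ex x ξ‖ₑ) k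
        have h6 : l < l / 2 + l / 2 :=
          (hR.trans_le hc).trans_le (add_le_add (h5.trans (not_le.1 hs).le) h4)
        rw [ENNReal.add_halves] at h6
        exact lt_irrefl _ h6
  have h8 : ∀ b : ℝ, 0 ≤ b → b ≤ 8 → ENNReal.ofReal (b ^ a) ≤ 8 ^ 11 := by
    intro b hb hb8
    have e : (8 ^ 11 : ℝ≥0∞) = ENNReal.ofReal ((8 : ℝ) ^ 11) := by
      rw [ENNReal.ofReal_pow (by norm_num)]
      norm_num
    rw [e]
    refine ENNReal.ofReal_le_ofReal ?_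
    calc b ^ a ≤ 8 ^ a := Real.rpow_le_rpow hb hb8 ha
      _ ≤ (8 : ℝ) ^ (11 : ℝ) := Real.rpow_le_rpow_of_exponent_le (by norm_num) ha11
      _ = (8 : ℝ) ^ 11 := by norm_num
  -- the three parts
  have p0 : l ^ 2 * volume E0 ≤ 4 * 8 ^ 11 * C1 * X := by
    have q1 := hC1 g0 x0 (l / 2) (hg.indicator measurableSet_closedBall)
    have q2 := piece (B := 4) ha (fun ξ => (hdb ξ).1)
      (measurableSet_closedBall (x := (0 : E 2)) (ε := rr 0)) (fun ξ hξ => by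
        have := (g2 0 (d ξ) (hdb ξ).1 ((hdb ξ).2.trans (mem_closedBall_zero_iff.1 hξ))).2
        simpa using this) g
    rw [four_half, mul_assoc]
    calc 4 * ((l / 2) ^ 2 * volume E0)
        ≤ 4 * (C1 * (ENNReal.ofReal (4 ^ a) *
          ∫⁻ ξ in Metric.closedBall (0 : E 2) (rr 0), ‖g ξ‖ₑ ^ 2 * w (11 - a) (d ξ))) :=
          mul_le_mul' le_rfl (q1.trans (mul_le_mul' le_rfl q2))
      _ ≤ 4 * (C1 * (8 ^ 11 * X)) := by
          refine mul_le_mul' le_rfl (mul_le_mul' le_rfl (mul_le_mul' (h8 4 (by norm_num)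
            (by norm_num)) ?_))
          exact setLIntegral_le_lintegral _ _
      _ = 4 * 8 ^ 11 * C1 * X := by ring
  have p1 : l ^ 2 * volume E1 ≤ 4 * C2 * X := by
    rw [four_half, mul_assoc]
    have q1 := mul_meas_ge_le_lintegral (μ := volume) (hSm.pow_const 2) ((l / 2) ^ 2)
    calc 4 * ((l / 2) ^ 2 * volume E1) ≤ 4 * (C2 * X) :=
          mul_le_mul' le_rfl (q1.trans ((hC2 g hg).trans (mul_le_mul' le_rfl hgX)))
      _ = 4 * C2 * X := by ring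
  have p2 : ∀ k, l ^ 2 * volume (E2 k) ≤
      4 * 8 ^ 11 * C1 * ∫⁻ ξ in PP k, ‖g ξ‖ₑ ^ 2 * w (11 - a) (d ξ) := by
    intro k
    have q1 := hC1 ((PP k).indicator g) x0 (lam k) (hg.indicator (PP_meas k))
    have q2 := piece (B := 4 * 2 ^ (k + 1)) ha (fun ξ => (hdb ξ).1) (PP_meas k) (fun ξ hξ =>
      (g2 (k + 1) (d ξ) (hdb ξ).1 ((hdb ξ).2.trans (mem_closedBall_zero_iff.1 hξ.1))).2) g
    have e1 : l ^ 2 = 4 * ENNReal.ofReal (((2 : ℝ) ^ k) ^ (-a)) * lam k ^ 2 := by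
      rw [four_half l, hlam]
      simp only
      rw [mul_pow]
      have e2 : ENNReal.ofReal (((2 : ℝ) ^ k) ^ (-a)) *
          ENNReal.ofReal (((2 : ℝ) ^ k) ^ (a / 2)) ^ 2 = 1 := by
        obtain ⟨y, hy⟩ : ∃ y : ℝ, y = (2 : ℝ) ^ k := ⟨_, rfl⟩
        have hy0 : 0 < y := by rw [hy]; positivity
        rw [← hy, ← ENNReal.ofReal_pow (by positivity), ← ENNReal.ofReal_mul (by positivity),
          ← Real.rpow_natCast, ← Real.rpow_mul hy0.le, ← Real.rpow_add hy0]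
        have : -a + a / 2 * ((2 : ℕ) : ℝ) = 0 := by push_cast; ring
        rw [this, Real.rpow_zero, ENNReal.ofReal_one]
      calc 4 * (l / 2) ^ 2 = 4 * (ENNReal.ofReal (((2 : ℝ) ^ k) ^ (-a)) *
          ENNReal.ofReal (((2 : ℝ) ^ k) ^ (a / 2)) ^ 2) * (l / 2) ^ 2 := by rw [e2, mul_one]
        _ = _ := by ring
    have e3 : ENNReal.ofReal (((2 : ℝ) ^ k) ^ (-a)) * ENNReal.ofReal ((4 * 2 ^ (k + 1)) ^ a) =
        ENNReal.ofReal (8 ^ a) := by
      rw [← ENNReal.ofReal_mul (by positivity)]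
      congr 1
      have : (4 * 2 ^ (k + 1) : ℝ) = 2 ^ k * 8 := by ring
      rw [this, Real.mul_rpow (by positivity) (by norm_num), ← mul_assoc,
        ← Real.rpow_add (by positivity), neg_add_cancel, Real.rpow_zero, one_mul]
    rw [e1, mul_assoc]
    calc 4 * ENNReal.ofReal (((2 : ℝ) ^ k) ^ (-a)) * (lam k ^ 2 * volume (E2 k))
        ≤ 4 * ENNReal.ofReal (((2 : ℝ) ^ k) ^ (-a)) * (C1 *
          (ENNReal.ofReal ((4 * 2 ^ (k + 1)) ^ a) *
            ∫⁻ ξ in PP k, ‖g ξ‖ₑ ^ 2 * w (11 - a) (d ξ))) :=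
          mul_le_mul' le_rfl (q1.trans (mul_le_mul' le_rfl q2))
      _ = 4 * C1 * (ENNReal.ofReal (((2 : ℝ) ^ k) ^ (-a)) *
          ENNReal.ofReal ((4 * 2 ^ (k + 1)) ^ a)) *
            ∫⁻ ξ in PP k, ‖g ξ‖ₑ ^ 2 * w (11 - a) (d ξ) := by ring
      _ = 4 * C1 * ENNReal.ofReal (8 ^ a) *
            ∫⁻ ξ in PP k, ‖g ξ‖ₑ ^ 2 * w (11 - a) (d ξ) := by rw [e3]
      _ ≤ 4 * C1 * 8 ^ 11 * ∫⁻ ξ in PP k, ‖g ξ‖ₑ ^ 2 * w (11 - a) (d ξ) :=
          mul_le_mul' (mul_le_mul' le_rfl (h8 8 (by norm_num) le_rfl)) le_rfl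
      _ = _ := by ring
  have p3 : l ^ 2 * volume (⋃ k, E2 k) ≤ 4 * 8 ^ 11 * C1 * X := by
    calc l ^ 2 * volume (⋃ k, E2 k) ≤ l ^ 2 * ∑' k, volume (E2 k) :=
          mul_le_mul' le_rfl (measure_iUnion_le _)
      _ = ∑' k, l ^ 2 * volume (E2 k) := by rw [ENNReal.tsum_mul_left]
      _ ≤ ∑' k, 4 * 8 ^ 11 * C1 * ∫⁻ ξ in PP k, ‖g ξ‖ₑ ^ 2 * w (11 - a) (d ξ) :=
          ENNReal.tsum_le_tsum p2
      _ = 4 * 8 ^ 11 * C1 * ∑' k, ∫⁻ ξ in PP k, ‖g ξ‖ₑ ^ 2 * w (11 - a) (d ξ) := by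
          rw [ENNReal.tsum_mul_left]
      _ = 4 * 8 ^ 11 * C1 * ∫⁻ ξ in ⋃ k, PP k, ‖g ξ‖ₑ ^ 2 * w (11 - a) (d ξ) := by
          rw [lintegral_iUnion PP_meas PP_disj]
      _ ≤ 4 * 8 ^ 11 * C1 * X := mul_le_mul' le_rfl (setLIntegral_le_lintegral _ _)
  calc l ^ 2 * volume {x ∈ Metric.closedBall x0 1 | l < Ma a g x}
      ≤ l ^ 2 * (volume E0 + (volume E1 + volume (⋃ k, E2 k))) := by
        refine mul_le_mul' le_rfl ((measure_mono hsub).trans ((measure_union_le _ _).trans ?_))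
        exact add_le_add le_rfl (measure_union_le _ _)
    _ = l ^ 2 * volume E0 + (l ^ 2 * volume E1 + l ^ 2 * volume (⋃ k, E2 k)) := by ring
    _ ≤ 4 * 8 ^ 11 * C1 * X + (4 * C2 * X + 4 * 8 ^ 11 * C1 * X) :=
        add_le_add p0 (add_le_add p1 p3)
    _ = (4 * 8 ^ 11 * C1 + 4 * C2 + 4 * 8 ^ 11 * C1) * X := by ring
    _ ≤ ((4 * 8 ^ 11 * C1 + 4 * C2 + 4 * 8 ^ 11 * C1 + 1 : ℝ≥0) : ℝ≥0∞) * X := by
        refine mul_le_mul' ?_ le_rfl
        push_cast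
        exact le_self_add

end Pool.Agent.GRO
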