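import Pool.Agent.GRO.Targets
import Pool.Agent.CRF.P_FFW

set_option autoImplicit false

/-!
# GRO, WDX0: weak inequality for finitely many lines
-/

namespace Pool.Agent.GRO

open MeasureTheory FourierTransform Set Filter Topology
open scoped ENNReal NNReal
open Pool.Agent.MBS (E ex S)
open Pool.Agent.CRN (T_CARLS)
open Pool.Agent.CRF (Mx dl w2 T_LLW T_FPW T_FRT T_FDN T_FFS)

/-- **WDX** -/
theorem p_WDX0 : T_WDX0 := by
  intro hc hl h1 h2 h3 D h hD
  obtain ⟨C, hC⟩ := h1 hc hl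
  -- one line
  have hone : ∃ C : ℝ≥0, ∀ (e : E 2) (g : E 2 → ℂ) (x0 : E 2) (l : ℝ≥0∞), ‖e‖ = 1 →
      Measurable g → l ^ 2 * volume {x ∈ Metric.closedBall x0 1 | l < Mx g x} ≤
        C * ∫⁻ ξ, ‖g ξ‖ₑ ^ 2 * w2 11 (dl e ξ) := by
    refine ⟨C, fun e g x0 l he hg => ?_⟩
    obtain ⟨A, a1, a2, a3, -, a5⟩ := h2 1 e he
    have hAc : Continuous (A : E 2 → E 2) := A.continuous
    have b1 := hC (fun ξ => g (A ξ)) (A.symm x0) l (hg.comp hAc.measurable)
    have b2 : {x ∈ Metric.closedBall (A.symm x0) 1 | l < Mx (fun ξ => g (A ξ)) x} =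
        A ⁻¹' {x ∈ Metric.closedBall x0 1 | l < Mx g x} := by
      ext x
      simp only [mem_preimage, Set.mem_ofPred_eq, Metric.mem_closedBall]
      have e1 : dist x (A.symm x0) = dist (A x) x0 := by
        rw [← A.dist_map x (A.symm x0), A.apply_symm_apply]
      rw [e1, a2 g x]
    rw [b2, a5] at b1
    refine b1.trans (le_of_eq ?_)
    congr 1
    rw [← a3 (fun ξ => ‖g ξ‖ₑ ^ 2 * w2 11 (dl e ξ))]
    refine lintegral_congr fun ξ => ?_
    rw [a1 ξ, Pool.Agent.CRF.FFW_.norm_tl]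
  exact (h3 2 (w2 11) (Pool.Agent.CRF.FFW_.meas_w2 11)).2 hone D h hD

end Pool.Agent.GRO
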