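import Pool.Agent.CRF.All
import Pool.Agent.GRO.P_GLC
import Pool.Agent.GRO.P_GDC
import Pool.Agent.GRO.P_GSS
import Pool.Agent.GRO.P_GSW
import Pool.Agent.GRO.P_GAE
import Pool.Agent.GRO.P_WDX0

set_option autoImplicit false

/-!
# GRO: assembly (MP_ee701d_an): two-parameter form of LogLogLines
-/

namespace Pool.Agent.GRO

open MeasureTheory
open scoped ENNReal NNReal

theorem q_DS2 : T_DS2 := by
  obtain ⟨C, hC⟩ := Pool.Agent.SEnd.fDSs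
  refine ⟨C * (Real.log (3 + Real.log 2) ^ 12).toNNReal, fun A f h1 h2 h3 h4 h5 => ?_⟩
  have h := hC (1 / 2) A f (by norm_num) le_rfl h1 h2 h3 h4 h5
  refine h.trans (le_of_eq ?_)
  rw [ENNReal.coe_mul, ENNReal.ofReal]
  norm_num

theorem q_GLC : T_GLC := p_GLC q_DS2

theorem q_GSS : T_GSS :=
  p_GSS Pool.Agent.CRF.q_FFS Pool.Agent.CRN.q_CARLS Pool.Agent.CRF.q_LLL q_GLC p_GDC

theorem q_WDX : T_WDX :=
  p_WDX0 Pool.Agent.CRN.q_CARLS Pool.Agent.CRF.q_LLW Pool.Agent.CRF.q_FPW Pool.Agent.CRF.p_FRT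
    Pool.Agent.CRF.p_FDN

theorem q_GSW : T_GSW := p_GSW q_WDX q_GLC p_GDC

theorem q_GAE : T_GAE := p_GAE q_GSW

end Pool.Agent.GRO
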